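import Pool.Agent.T6.H57.NS.Wm
import Pool.Agent.Y755.Res

set_option autoImplicit false

/-! Chains of windows and shifts. -/

namespace Pool.Agent.T6.H57.NS

open Finset Filter MeasureTheory
open Pool.Agent.W184.NZ
open Pool.Agent.W184 (zn zn_nonneg zn_cont zn_le' zn_neg)
open Pool.Agent.Y755

/-- chaining windows -/
theorem chain {f : ℝ → ℝ} (hf : Continuous f) {k a0 B : ℝ} (ha0 : 0 < a0)
    (hW : ∀ U H : ℝ, a0 ≤ U → a0 ≤ H → U + H ≤ 8 * U → U + H ≤ B → k * H ≤ ∫ t in U..(U + H), f t) :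
    ∀ a b : ℝ, a0 ≤ a → a + a0 ≤ b → b ≤ B → k * (b - a) ≤ ∫ t in a..b, f t := by
  have key : ∀ n : ℕ, ∀ a b : ℝ, a0 ≤ a → a + a0 ≤ b → b ≤ B → b ≤ 2 ^ n * (8 * a) →
      k * (b - a) ≤ ∫ t in a..b, f t := by
    intro n
    induction n with
    | zero =>
      intro a b h1 h2 h3 h4
      have h5 := hW a (b - a) h1 (by linarith) (by linarith) (by linarith)
      rwa [show a + (b - a) = b by ring] at h5
    | succ n ih =>
      intro a b h1 h2 h3 h4
      rcases le_or_gt b (8 * a) with h5 | h5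
      · have h5 := hW a (b - a) h1 (by linarith) (by linarith) (by linarith)
        rwa [show a + (b - a) = b by ring] at h5
      · have h6 := ih a (b / 2) h1 (by linarith) (by linarith) (by rw [pow_succ] at h4; linarith)
        have h7 := hW (b / 2) (b / 2) (by linarith) (by linarith) (by linarith) (by linarith)
        rw [show b / 2 + b / 2 = b by ring] at h7
        have h8 := intervalIntegral.integral_add_adjacent_intervals (hf.intervalIntegrable a (b / 2))
          (hf.intervalIntegrable (b / 2) b) (μ := volume)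
        rw [← h8]
        have e : k * (b - a) = k * (b / 2 - a) + k * (b / 2) := by ring
        linarith
  intro a b h1 h2 h3
  have ha : 0 < a := by linarith
  obtain ⟨n, hn⟩ := exists_nat_gt (b / (8 * a))
  refine key n a b h1 h2 h3 ?_
  have h5 : (n:ℝ) ≤ 2 ^ n := by
    have : n < 2 ^ n := Nat.lt_two_pow_self
    exact_mod_cast this.le
  rw [div_lt_iff₀ (by linarith)] at hn
  exact hn.le.trans (mul_le_mul_of_nonneg_right h5 (by linarith))

/-- chaining windows, upper bound -/
theorem chain_up {f : ℝ → ℝ} (hf : Continuous f) {k a0 B : ℝ} (ha0 : 0 < a0)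
    (hW : ∀ U H : ℝ, a0 ≤ U → a0 ≤ H → U + H ≤ 8 * U → U + H ≤ B → ∫ t in U..(U + H), f t ≤ k * H) :
    ∀ a b : ℝ, a0 ≤ a → a + a0 ≤ b → b ≤ B → ∫ t in a..b, f t ≤ k * (b - a) := by
  intro a b h1 h2 h3
  have h4 := chain (f := fun t => - f t) hf.neg (k := -k) ha0 (B := B) (fun U H g1 g2 g3 g4 => by
    have := hW U H g1 g2 g3 g4
    rw [intervalIntegral.integral_neg]
    linarith) a b h1 h2 h3
  rw [intervalIntegral.integral_neg] at h4
  linarith

/-- a shifted interval is made of two intervals on the positive half line -/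
theorem shift_two {f : ℝ → ℝ} (hf : Continuous f) (he : ∀ t, f (-t) = f t) {x T : ℝ} (hT : 0 ≤ T) :
    ∃ a₁ b₁ a₂ b₂ : ℝ, 0 ≤ a₁ ∧ a₁ ≤ b₁ ∧ 0 ≤ a₂ ∧ a₂ ≤ b₂ ∧ b₁ ≤ |x| + T ∧ b₂ ≤ |x| + T ∧
      (b₁ - a₁) + (b₂ - a₂) = T ∧ ∫ t in x..(T + x), f t = (∫ t in a₁..b₁, f t) + ∫ t in a₂..b₂, f t := by
  have hr : ∀ u v : ℝ, ∫ t in u..v, f t = ∫ t in (-v)..(-u), f t := by
    intro u v
    rw [← intervalIntegral.integral_comp_neg (fun t => f t)]
    exact intervalIntegral.integral_congr fun t _ => (he t).symm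
  rcases le_or_gt 0 x with hx | hx
  · refine ⟨x, T + x, 0, 0, hx, by linarith, le_rfl, le_rfl, ?_, ?_, by ring, by simp⟩
    · rw [abs_of_nonneg hx]; linarith
    · positivity
  · rcases le_or_gt (T + x) 0 with h2 | h2
    · refine ⟨-(T + x), -x, 0, 0, by linarith, by linarith, le_rfl, le_rfl, ?_, ?_, by ring, ?_⟩
      · rw [abs_of_neg hx]; linarith
      · positivity
      · rw [hr x (T + x)]; simp
    · refine ⟨0, -x, 0, T + x, le_rfl, by linarith, le_rfl, h2.le, ?_, ?_, by ring, ?_⟩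
      · rw [abs_of_neg hx]; linarith
      · have := abs_nonneg x
        linarith
      · have h8 := intervalIntegral.integral_add_adjacent_intervals (hf.intervalIntegrable x 0)
          (hf.intervalIntegrable 0 (T + x)) (μ := volume)
        rw [← h8, hr x 0, neg_zero]

end Pool.Agent.T6.H57.NS
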