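import Pool.Agent.Y755.Wi3
import Pool.Agent.Y755.Hpc

set_option autoImplicit false

/-! Mean values over a short window (variants of the lemmas of `Pool.Agent.Y755` with the length of the window
in place of its right end point). -/

namespace Pool.Agent.T6.H57.NS

open Finset Filter MeasureTheory
open Pool.Agent.W184.NZ
open Pool.Agent.W184 (zn zn_nonneg zn_cont zn_le')
open Pool.Agent.Y755

lemma mvt_upS {δ N U H : ℝ} (hδ : 0 ≤ δ) {f : P1} (hf : Bd1 N f) :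
    ∫ t in U..(U + H), ‖es (1 / 2 + δ + t * Complex.I) f‖ ^ 2 ≤ H * ip δ f f + 4 * N * l1' f ^ 2 := by
  have h1 := (abs_le.mp (mvt_win (X1 := U) (X2 := U + H) hδ hf)).2
  have e : U + H - U = H := by ring
  rw [e] at h1
  linarith

section

variable {c y δ a W U H : ℝ} {z J Rs N K : ℕ} {A0 : P1} {m : ℝ}

/-- the truncated polynomials -/
lemma I1S (h : Sy c z y J Rs N K) (hA : Bd1 m A0) (ha : |a| ≤ 2) (hδ : 0 ≤ δ)
    (hW : Real.exp (Real.log y * (180 * ((Rs:ℝ) + 1))) ≤ W) :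
    ∑ S ∈ (range J).powerset, ∫ t in U..(U + H), ‖es (1 / 2 + δ + t * Complex.I) (DS N a z y J Rs A0 S)‖ ^ 2 ≤
      H * (∑ S ∈ (range J).powerset, ip δ (DS N a z y J Rs A0 S) (DS N a z y J Rs A0 S)) +
      4 * (N:ℝ) ^ 3 * (l1' (Pz z * A0) ^ 2 * W) := by
  refine (sum_le_sum fun S _ => mvt_upS hδ (DS_Bd (a := a) h hA S)).trans ?_
  rw [sum_add_distrib, ← mul_sum, ← mul_sum]
  have h2 := DS_l1 (A0 := A0) h ha
  have h3 : (N:ℝ) ^ 2 * (l1' (Pz z * A0) ^ 2 * Real.exp (Real.log y * (180 * ((Rs:ℝ) + 1)))) ≤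
      (N:ℝ) ^ 2 * (l1' (Pz z * A0) ^ 2 * W) := by gcongr
  have h4 := mul_le_mul_of_nonneg_left (h2.trans h3) (by positivity : (0:ℝ) ≤ 4 * N)
  linarith

/-- the comparison polynomials -/
lemma I2S (h : Sy c z y J Rs N K) (hA : Bd1 m A0) (hm : 0 ≤ m) (ha : |a| ≤ 2) (hδ : 0 ≤ δ)
    (hW : Real.exp (Real.log y * (180 * ((Rs:ℝ) + 1))) ≤ W) :
    ∑ S ∈ (range J).powerset, ∫ t in U..(U + H), ‖es (1 / 2 + δ + t * Complex.I) (A0 * Bz a z y J Rs S)‖ ^ 2 ≤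
      H * (∑ S ∈ (range J).powerset, ip δ (A0 * Bz a z y J Rs S) (A0 * Bz a z y J Rs S)) +
      4 * (m * W) * (l1' A0 ^ 2 * W) := by
  refine (sum_le_sum fun S _ => mvt_upS hδ (AB_Bd (a := a) h hA hm hW S)).trans ?_
  rw [sum_add_distrib, ← mul_sum, ← mul_sum]
  have hW1 := one_le_W h hW
  have h4 := mul_le_mul_of_nonneg_left (AB_l1 (A0 := A0) h ha hW) (by positivity : (0:ℝ) ≤ 4 * (m * W))
  linarith

/-- closeness -/
lemma I4S {κ : ℝ} (h : Sy c z y J Rs N K) (hA : Bd1 m A0) (hm : 0 ≤ m) (ha : |a| ≤ 2) (hκ : |κ| ≤ 2) (hδ : 0 ≤ δ)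
    (hW : Real.exp (Real.log y * (180 * ((Rs:ℝ) + 1))) ≤ W) (hmN : m * W ≤ N) :
    ∫ t in U..(U + H), ‖es (1 / 2 + δ + t * Complex.I) (DS N a z y J Rs A0 ∅ - A0 * Bz κ z y J Rs ∅)‖ ^ 2 ≤
      H * ip δ (DS N a z y J Rs A0 ∅ - A0 * Bz κ z y J Rs ∅) (DS N a z y J Rs A0 ∅ - A0 * Bz κ z y J Rs ∅) +
      8 * N * ((N:ℝ) ^ 2 * (l1' (Pz z * A0) ^ 2 * W) + l1' A0 ^ 2 * W) := by
  have hB : Bd1 N (DS N a z y J Rs A0 ∅ - A0 * Bz κ z y J Rs ∅) :=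
    (DS_Bd h hA ∅).sub ((AB_Bd h hA hm hW ∅).mono hmN)
  refine (mvt_upS hδ hB).trans ?_
  have h1 : l1' (DS N a z y J Rs A0 ∅ - A0 * Bz κ z y J Rs ∅) ≤ l1' (DS N a z y J Rs A0 ∅) + l1' (A0 * Bz κ z y J Rs ∅) := by
    have e : DS N a z y J Rs A0 ∅ - A0 * Bz κ z y J Rs ∅ = DS N a z y J Rs A0 ∅ + (-1 : ℝ) • (A0 * Bz κ z y J Rs ∅) := by
      rw [neg_one_smul]; abel
    rw [e]
    refine (l1'_add _ _).trans (add_le_add le_rfl ((l1'_smul _ _).trans ?_))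
    rw [abs_neg, abs_one, one_mul]
  have h2 := pow_le_pow_left₀ (l1'_nonneg _) h1 2
  have h3 : l1' (DS N a z y J Rs A0 ∅) ^ 2 ≤ (N:ℝ) ^ 2 * (l1' (Pz z * A0) ^ 2 * W) := by
    refine le_trans (single_le_sum (f := fun S => l1' (DS N a z y J Rs A0 S) ^ 2) (fun _ _ => sq_nonneg _)
      (empty_mem_powerset (range J))) ((DS_l1 (A0 := A0) h ha).trans ?_)
    gcongr
  have h4 := AB_l1_one (A0 := A0) h hκ hW
  have h5 : l1' (DS N a z y J Rs A0 ∅ - A0 * Bz κ z y J Rs ∅) ^ 2 ≤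
      2 * ((N:ℝ) ^ 2 * (l1' (Pz z * A0) ^ 2 * W) + l1' A0 ^ 2 * W) := by
    nlinarith [sq_nonneg (l1' (DS N a z y J Rs A0 ∅) - l1' (A0 * Bz κ z y J Rs ∅))]
  have h6 := mul_le_mul_of_nonneg_left h5 (by positivity : (0:ℝ) ≤ 4 * N)
  linarith

/-- the far parts -/
lemma I5S {κ : ℝ} (h : Sy c z y J Rs N K) (hA : Bd1 m A0) (hm : 0 ≤ m) (hκ : |κ| ≤ 2) (hδ : 0 ≤ δ)
    (hW : Real.exp (Real.log y * (180 * ((Rs:ℝ) + 1))) ≤ W) :
    ∑ j ∈ range J, ∫ t in U..(U + H), ‖es (1 / 2 + δ + t * Complex.I)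
      (A0 * Bz κ z y J Rs ∅ * Qe (RR Rs j) (IZ z y j))‖ ^ 2 ≤
      H * (∑ j ∈ range J, ip δ (A0 * Bz κ z y J Rs ∅ * Qe (RR Rs j) (IZ z y j))
        (A0 * Bz κ z y J Rs ∅ * Qe (RR Rs j) (IZ z y j))) + 4 * m * l1' A0 ^ 2 * W ^ 6 := by
  have hW1 := one_le_W h hW
  have hb : ∀ j, 0 ≤ bb y j := fun j => (bb_pos y j).le
  have hQB : ∀ j, Bd1 W (Qe (RR Rs j) (IZ z y j)) := fun j => (Qe_Bd (rg_b h.rg j) _).mono (bbR_le h hW j)
  have hQl : ∀ j, l1' (Qe (RR Rs j) (IZ z y j)) ≤ W := fun j =>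
    (Qe_l1 (hb j) (rg_b h.rg j) (by have := h.R1; unfold RR; omega)).trans (bbR_le h hW j)
  have h1 : ∀ j ∈ range J, ∫ t in U..(U + H), ‖es (1 / 2 + δ + t * Complex.I)
      (A0 * Bz κ z y J Rs ∅ * Qe (RR Rs j) (IZ z y j))‖ ^ 2 ≤
      H * ip δ (A0 * Bz κ z y J Rs ∅ * Qe (RR Rs j) (IZ z y j))
        (A0 * Bz κ z y J Rs ∅ * Qe (RR Rs j) (IZ z y j)) + 4 * m * l1' A0 ^ 2 * W ^ 5 := by
    intro j _
    refine (mvt_upS hδ ((AB_Bd h hA hm hW ∅).mul (hQB j))).trans ?_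
    have h2 : l1' (A0 * Bz κ z y J Rs ∅ * Qe (RR Rs j) (IZ z y j)) ^ 2 ≤ l1' A0 ^ 2 * W * W ^ 2 := by
      refine (pow_le_pow_left₀ (l1'_nonneg _) (l1'_mul _ _) 2).trans ?_
      rw [mul_pow]
      exact mul_le_mul (AB_l1_one h hκ hW) (pow_le_pow_left₀ (l1'_nonneg _) (hQl j) 2) (by positivity) (by positivity)
    have h3 := mul_le_mul_of_nonneg_left h2 (by positivity : 0 ≤ 4 * (m * W * W))
    nlinarith
  refine (sum_le_sum h1).trans ?_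
  rw [sum_add_distrib, ← mul_sum]
  refine add_le_add le_rfl ?_
  rw [sum_const, card_range, nsmul_eq_mul]
  have h2 := J_le h hW
  calc (J:ℝ) * (4 * m * l1' A0 ^ 2 * W ^ 5) ≤ W * (4 * m * l1' A0 ^ 2 * W ^ 5) := by gcongr
    _ = _ := by ring

end

section

variable {c y δ α ε τ W U H Q : ℝ} {z J Rs N K : ℕ} {A0 : P1} {m : ℝ}

/-- the upper bound over a window -/
theorem win_upS (h : Sy c z y J Rs N K) (hA : Bd1 m A0) (hAm : A0 ∈ SA1 (M1 (S0 z))) (hm0 : 0 ≤ m)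
    (hmK : m < 2 ^ (K + 1)) (hδ : 0 ≤ δ) (hδ1 : δ ≤ 1 / 16) (hα : 0 < α) (hα1 : α ≤ 1) (hτ : 0 < τ)
    (hPA : ∀ t : ℝ, 1 - ε ≤ ‖es (1 / 2 + δ + t * Complex.I) (Pz z)‖ ^ (2 * α) * ‖es (1 / 2 + δ + t * Complex.I) A0‖ ^ 2)
    (hε : ε ≤ 1) (h4 : 4 * Real.exp (-(2 * (Rs:ℝ))) ≤ 1) (hE : ET c z y J Rs ≤ 1) (hH : 0 ≤ H)
    (hW : Real.exp (Real.log y * (180 * ((Rs:ℝ) + 1))) ≤ W)
    (hQ : ∑ S ∈ (range J).powerset, ∫ t in U..(U + H), qd (fun s => es s (Pz z * A0 * Bz (α - 1) z y J Rs S))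
          (fun s => es s (DS N (α - 1) z y J Rs A0 S)) (1 / 2 + δ) t ≤ Q) :
    (1 - ε) * (1 - 4 * Real.exp (-(2 * (Rs:ℝ)))) * (∫ t in U..(U + H), zn (1 / 2 + δ) t ^ (2 * α)) ≤
      α * ((1 + τ) * (H * ((ip δ A0 A0 + (2 ^ (S0 z).card * l1' A0) ^ 2 / 2 ^ (K + 1)) *
        Real.exp (α ^ 2 * Vd δ z y J + ET c z y J Rs) * Real.exp (2 * vd δ (Rst N y))) +
        4 * (N:ℝ) ^ 3 * (l1' (Pz z * A0) ^ 2 * W)) + (1 + 1 / τ) * Q) +
      (1 - α) * (H * (ip δ A0 A0 * Real.exp (α ^ 2 * Vd δ z y J + ET c z y J Rs)) + 4 * (m * W) * (l1' A0 ^ 2 * W)) := by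
  have ha : |α - 1| ≤ 1 := by rw [abs_le]; constructor <;> linarith
  have hUH : U ≤ U + H := by linarith
  have hDc : ∀ S, Continuous fun t : ℝ => ‖es (1 / 2 + δ + t * Complex.I) (DS N (α - 1) z y J Rs A0 S)‖ ^ 2 :=
    fun S => es_cont0 δ (DS_Bd h hA S)
  have hBc : ∀ S, Continuous fun t : ℝ => ‖es (1 / 2 + δ + t * Complex.I) (A0 * Bz α z y J Rs S)‖ ^ 2 :=
    fun S => es_cont0 δ (hA.mul (Bz_Bd h S))
  have hqc := qdS_cont (δ := δ) h hA hδ1 (α - 1)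
  have h1 : ∫ t in U..(U + H), (1 - ε) * (1 - 4 * Real.exp (-(2 * (Rs:ℝ)))) * zn (1 / 2 + δ) t ^ (2 * α) ≤
      ∫ t in U..(U + H), (α * (∑ S ∈ (range J).powerset, ((1 + τ) * ‖es (1 / 2 + δ + t * Complex.I) (DS N (α - 1) z y J Rs A0 S)‖ ^ 2 +
        (1 + 1 / τ) * qd (fun s => es s (Pz z * A0 * Bz (α - 1) z y J Rs S))
          (fun s => es s (DS N (α - 1) z y J Rs A0 S)) (1 / 2 + δ) t)) +
      (1 - α) * ∑ S ∈ (range J).powerset, ‖es (1 / 2 + δ + t * Complex.I) (A0 * Bz α z y J Rs S)‖ ^ 2) := by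
    refine intervalIntegral.integral_mono_on hUH ?_ ?_ fun t _ => up_pw2 h.R1 hα hα1 t hτ (hPA t) hε h4
    · exact (continuous_const.mul (znp_cont (by linarith) (by linarith))).intervalIntegrable _ _
    · exact ((continuous_const.mul (continuous_finsetSum _ fun S _ => (continuous_const.mul (hDc S)).add
        (continuous_const.mul (hqc S)))).add (continuous_const.mul (continuous_finsetSum _ fun S _ => hBc S))).intervalIntegrable _ _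
  rw [intervalIntegral.integral_const_mul] at h1
  refine h1.trans ?_
  rw [int_comb hDc hqc hBc]
  have g1 := I1S (a := α - 1) (U := U) (H := H) h hA (ha.trans (by norm_num : (1:ℝ) ≤ 2)) hδ hW
  have g2 := N1 h hδ ha hA hAm hmK
  have g3 := I2S (a := α) (U := U) (H := H) h hA hm0 (by rw [abs_le]; constructor <;> linarith) hδ hW
  have g4 := (N45 h hδ ha hAm hE).2
  have e1 : 1 + (α - 1) = α := by ring
  rw [e1] at g2 g4
  have g5 := mul_le_mul_of_nonneg_left g2 hH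
  have g6 := mul_le_mul_of_nonneg_left g4 hH
  refine add_le_add (mul_le_mul_of_nonneg_left (add_le_add (mul_le_mul_of_nonneg_left ?_ (by linarith))
    (mul_le_mul_of_nonneg_left hQ (by positivity))) hα.le) (mul_le_mul_of_nonneg_left ?_ (by linarith))
  · linarith
  · linarith

/-- the lower bound over a window -/
theorem win_lowS (h : Sy c z y J Rs N K) (hA : Bd1 m A0) (hAm : A0 ∈ SA1 (M1 (S0 z))) (hm0 : 0 ≤ m)
    (hmK : m < 2 ^ (K + 1)) (hmN : m * W ≤ N) (hδ : 0 ≤ δ) (hδ1 : δ ≤ 1 / 16) (hα : 0 < α) (hα2 : α ≤ 2) (hτ : 0 < τ)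
    (hτ1 : τ ≤ 1 / 2)
    (hA0 : ∀ t : ℝ, 0 < ‖es (1 / 2 + δ + t * Complex.I) A0‖)
    (hPA : ∀ t : ℝ, ‖es (1 / 2 + δ + t * Complex.I) (Pz z)‖ ^ (2 * α) * ‖es (1 / 2 + δ + t * Complex.I) A0‖ ^ 2 ≤ 1 + ε)
    (hE : ET c z y J Rs ≤ 1) (hH : 0 ≤ H)
    (hW : Real.exp (Real.log y * (180 * ((Rs:ℝ) + 1))) ≤ W)
    (hQ : ∑ S ∈ (range J).powerset, ∫ t in U..(U + H), qd (fun s => es s (Pz z * A0 * Bz (α - 1) z y J Rs S))
          (fun s => es s (DS N (α - 1) z y J Rs A0 S)) (1 / 2 + δ) t ≤ Q) :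
    (1 - 2 * τ) * (H * ((1 - ET c z y J Rs) * (ip δ A0 A0 * Real.exp (α ^ 2 * Vd δ z y J))) -
        4 * (m * W) * (l1' A0 ^ 2 * W)) -
      4 * (1 + 1 / τ) * (Q + (H * (((ip δ A0 A0 + (2 ^ (S0 z).card * l1' A0) ^ 2 / 2 ^ (K + 1)) *
        Real.exp (ET c z y J Rs + 2 * vd δ (Rst N y)) -
        2 * (1 - ET c z y J Rs) * ip δ A0 A0 + Real.exp (ET c z y J Rs) * ip δ A0 A0) *
        Real.exp (α ^ 2 * Vd δ z y J)) +
        8 * N * ((N:ℝ) ^ 2 * (l1' (Pz z * A0) ^ 2 * W) + l1' A0 ^ 2 * W))) -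
      (H * (ET c z y J Rs * Real.exp (ET c z y J Rs) * (ip δ A0 A0 * Real.exp (α ^ 2 * Vd δ z y J))) +
        4 * m * l1' A0 ^ 2 * W ^ 6) ≤
    (1 + ε) * Real.exp (14 * Real.exp (-(2 * (Rs:ℝ)))) * (∫ t in U..(U + H), zn (1 / 2 + δ) t ^ (2 * α)) := by
  have ha : |α - 1| ≤ 1 := by rw [abs_le]; constructor <;> linarith
  have ha2 : |α - 1| ≤ 2 := ha.trans (by norm_num)
  have hα22 : |α| ≤ 2 := by rw [abs_le]; constructor <;> linarith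
  have hUH : U ≤ U + H := by linarith
  have e0 : 1 + (α - 1) = α := by ring
  have hWm : ∀ S, Bd1 (m * W) (A0 * Bz α z y J Rs S) := fun S => AB_Bd h hA hm0 hW S
  have hQB : ∀ j, Bd1 W (Qe (RR Rs j) (IZ z y j)) := fun j => (Qe_Bd (rg_b h.rg j) _).mono (bbR_le h hW j)
  have c1 : Continuous fun t : ℝ => ‖es (1 / 2 + δ + t * Complex.I) (A0 * Bz α z y J Rs ∅)‖ ^ 2 := es_cont0 δ (hWm ∅)
  have c2 := qdS_cont (δ := δ) h hA hδ1 (α - 1) ∅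
  have c3 : Continuous fun t : ℝ => ‖es (1 / 2 + δ + t * Complex.I) (DS N (α - 1) z y J Rs A0 ∅ - A0 * Bz α z y J Rs ∅)‖ ^ 2 :=
    es_cont0 δ ((DS_Bd h hA ∅).sub ((hWm ∅).mono hmN))
  have c4 : ∀ j, Continuous fun t : ℝ => ‖es (1 / 2 + δ + t * Complex.I) (A0 * Bz α z y J Rs ∅ * Qe (RR Rs j) (IZ z y j))‖ ^ 2 :=
    fun j => es_cont0 δ ((hWm ∅).mul (hQB j))
  have h1 : ∫ t in U..(U + H), ((1 - 2 * τ) * ‖es (1 / 2 + δ + t * Complex.I) (A0 * Bz α z y J Rs ∅)‖ ^ 2 -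
      4 * (1 + 1 / τ) * (qd (fun s => es s (Pz z * A0 * Bz (α - 1) z y J Rs ∅))
          (fun s => es s (DS N (α - 1) z y J Rs A0 ∅)) (1 / 2 + δ) t +
        ‖es (1 / 2 + δ + t * Complex.I) (DS N (α - 1) z y J Rs A0 ∅ - A0 * Bz α z y J Rs ∅)‖ ^ 2) -
      ∑ j ∈ range J, ‖es (1 / 2 + δ + t * Complex.I) (A0 * Bz α z y J Rs ∅ * Qe (RR Rs j) (IZ z y j))‖ ^ 2) ≤
      ∫ t in U..(U + H), (1 + ε) * Real.exp (14 * Real.exp (-(2 * (Rs:ℝ)))) * zn (1 / 2 + δ) t ^ (2 * α) := by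
    refine intervalIntegral.integral_mono_on hUH ?_ ?_ fun t _ => low_pw2 h.R1 hα hα2 t hτ (hA0 t) (hPA t)
    · exact (((continuous_const.mul c1).sub (continuous_const.mul (c2.add c3))).sub
        (continuous_finsetSum _ fun j _ => c4 j)).intervalIntegrable _ _
    · exact (continuous_const.mul (znp_cont (by linarith) (by linarith))).intervalIntegrable _ _
  rw [intervalIntegral.integral_const_mul] at h1
  refine le_trans ?_ h1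
  rw [int_comb2 c1 c2 c3 c4]
  have g1 := I3 (a := α) (X1 := U) (X2 := U + H) h hA hm0 hα22 hδ hW
  have eUH : U + H - U = H := by ring
  rw [eUH] at g1
  have n45 := (N45 h hδ ha hAm hE).1
  rw [e0] at n45
  have g2 := mul_le_mul_of_nonneg_left n45 hH
  have g3 : ∫ t in U..(U + H), qd (fun s => es s (Pz z * A0 * Bz (α - 1) z y J Rs ∅))
          (fun s => es s (DS N (α - 1) z y J Rs A0 ∅)) (1 / 2 + δ) t ≤ Q := by
    refine le_trans ?_ hQ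
    exact single_le_sum (f := fun S => ∫ t in U..(U + H), qd (fun s => es s (Pz z * A0 * Bz (α - 1) z y J Rs S))
          (fun s => es s (DS N (α - 1) z y J Rs A0 S)) (1 / 2 + δ) t)
      (fun S _ => intervalIntegral.integral_nonneg hUH fun t _ => qd_nonneg _ _ _ _) (empty_mem_powerset (range J))
  have g4 := I4S (U := U) (H := H) h hA hm0 ha2 hα22 hδ hW hmN
  have n2 := N2 h hδ ha hA hAm hmK (by rw [e0]; exact (hWm ∅).mono hmN) hE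
  rw [e0] at n2
  have g5 := mul_le_mul_of_nonneg_left n2 hH
  have g6 := I5S (U := U) (H := H) h hA hm0 hα22 hδ hW
  have n3 := N3 h hδ ha hAm
  rw [e0] at n3
  have g7 := mul_le_mul_of_nonneg_left n3 hH
  have k1 := mul_le_mul_of_nonneg_left (le_trans (sub_le_sub_right g2 _) g1) (by linarith : 0 ≤ 1 - 2 * τ)
  have k2 := mul_le_mul_of_nonneg_left (add_le_add g3 (g4.trans (add_le_add g5 le_rfl)))
    (by positivity : 0 ≤ 4 * (1 + 1 / τ))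
  have k3 := g6.trans (add_le_add g7 le_rfl)
  exact sub_le_sub (sub_le_sub k1 k2) k3

end

end Pool.Agent.T6.H57.NS
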