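import Pool.Agent.T6.H57.SM.S2M
import Pool.Agent.T6.H57.NS.Wn

set_option autoImplicit false

/-! The difference off the line is small on average over short windows. -/

namespace Pool.Agent.T6.H57.NS

open Finset Filter MeasureTheory
open Pool.Agent.W184.NZ
open Pool.Agent.H306R2.SM (cl)
open Pool.Agent.W184 (zn zn_nonneg zn_cont zn_le')
open Pool.Agent.Y755

/-- one polynomial -/
lemma hp_oneS {f : P1} {N : ℕ} {M T δ U H : ℝ} (hN : 1 ≤ N) (hf : Bd1 M f) (hT : 10 ^ 10 ≤ T)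
    (hL : 1 / Real.log T ≤ δ) (hδ : δ ≤ 1 / 16) (hU0 : 0 ≤ U) (hH : 0 ≤ H) (hUH : U + H ≤ 4 * T) :
    ∫ t in U..(U + H), qd (fun s => es s f) (fun s => es s (Dt N f)) (1 / 2 + δ) t ≤
      32 * (N:ℝ) ^ (-(2 * δ)) * ((∫ t in (U - T ^ ((1:ℝ)/4))..(U + H + T ^ ((1:ℝ)/4)),
        qd (fun s => es s f) (fun s => es s (Dt N f)) (1 / 2) t) +
        30000000 * ((1 + (N:ℝ) ^ 2) * l1' f ^ 2) / T) := by
  have hT0 : 0 < T := by linarith
  have hT1 : 1 ≤ T := by linarith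
  have hL0 : 0 < Real.log T := Real.log_pos (by linarith)
  have hδ0 : 0 < δ := lt_of_lt_of_le (by positivity) hL
  have hN1 : (1:ℝ) ≤ N := by exact_mod_cast hN
  have hD := Dt_Bd (N := N) hf
  have hDl := Dt_l1 N f
  have hl0 := l1'_nonneg f
  obtain ⟨C2, hC2⟩ := Dt_far hN hf
  set B : ℝ := 576 * ((1 + (N:ℝ) ^ 2) * l1' f ^ 2) with hB
  have hB0 : 0 ≤ B := by positivity
  have hGB := qd_growth hf N
  rw [← hB] at hGB
  have hab : U ≤ U + H := by linarith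
  have hm := hp_win (Q := fun s => es s (Dt N f)) (A := fun s => es s f) (N := N) (C1 := l1' (Dt N f)) (C2 := C2)
    (CA := l1' f) (Δ := δ) (a := U) (b := U + H) (U := T ^ ((1:ℝ)/4)) (B := B) hN1 (es_diff hf)
    (fun z hz => es_norm_le (by linarith) hf) (es_diff hD) (fun z hz => es_norm_le (by linarith) hD) hC2
    hδ0 (by linarith) hab (Real.one_le_rpow hT1 (by norm_num)) hB0 hGB
  have hfac := fac_ge hN1 hδ0.le hδ
  have hI0 : 0 ≤ ∫ t in U..(U + H), qd (fun s => es s f) (fun s => es s (Dt N f)) (1 / 2 + δ) t :=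
    intervalIntegral.integral_nonneg hab fun x _ => qd_nonneg _ _ _ _
  have h1 := (mul_le_mul_of_nonneg_right hfac hI0).trans hm
  have h3 : (U + H - U) * (2 * (2 * B * (1 + U ^ 2)) * (1 + (U + H - U) ^ 2)) *
      (Real.pi * (1 / δ) * ((T ^ ((1:ℝ)/4)) ^ 28)⁻¹) ≤ 30000000 * ((1 + (N:ℝ) ^ 2) * l1' f ^ 2) / T := by
    have e0 : U + H - U = H := by ring
    rw [e0]
    have b2 : H ≤ 4 * T := by linarith
    have b1 : U ≤ 4 * T := by linarith
    have b3 : 1 + U ^ 2 ≤ 17 * T ^ 2 := by nlinarith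
    have b4 : 1 + H ^ 2 ≤ 17 * T ^ 2 := by nlinarith
    have b5 : (T ^ ((1:ℝ)/4)) ^ 28 = T ^ 7 := by
      rw [← Real.rpow_natCast, ← Real.rpow_mul hT0.le, ← Real.rpow_natCast]; congr 1; norm_num
    have b6 : 1 / δ ≤ T := by
      have c1 : 1 / δ ≤ Real.log T := by
        rw [div_le_iff₀ hδ0, ← div_le_iff₀' hL0]; exact hL
      have c2 := Real.log_le_sub_one_of_pos hT0
      linarith
    have b7 : Real.pi ≤ 63 / 20 := by have := Real.pi_lt_d2; linarith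
    rw [b5]
    have c1 : H * ((1 + U ^ 2) * (1 + H ^ 2)) ≤ 4 * T * ((17 * T ^ 2) * (17 * T ^ 2)) := by gcongr
    have c2 : Real.pi * (1 / δ) ≤ 63 / 20 * T := by
      have := hδ0
      gcongr
    have c3 : (H * ((1 + U ^ 2) * (1 + H ^ 2))) * (Real.pi * (1 / δ)) ≤
        (4 * T * ((17 * T ^ 2) * (17 * T ^ 2))) * (63 / 20 * T) := by
      have := Real.pi_pos
      exact mul_le_mul c1 c2 (by positivity) (by positivity)
    have c4 : (T ^ 7)⁻¹ * T ^ 6 = 1 / T := by field_simp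
    have c5 : 0 ≤ (T ^ 7)⁻¹ := by positivity
    calc H * (2 * (2 * B * (1 + U ^ 2)) * (1 + H ^ 2)) * (Real.pi * (1 / δ) * (T ^ 7)⁻¹) =
          4 * B * ((H * ((1 + U ^ 2) * (1 + H ^ 2))) * (Real.pi * (1 / δ))) * (T ^ 7)⁻¹ := by ring
      _ ≤ 4 * B * ((4 * T * ((17 * T ^ 2) * (17 * T ^ 2))) * (63 / 20 * T)) * (T ^ 7)⁻¹ := by gcongr
      _ = (4 * 4 * 17 * 17 * 63 / 20) * B * ((T ^ 7)⁻¹ * T ^ 6) := by ring
      _ = (4 * 4 * 17 * 17 * 63 / 20) * B * (1 / T) := by rw [c4]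
      _ = ((4 * 4 * 17 * 17 * 63 / 20) * 576) * ((1 + (N:ℝ) ^ 2) * l1' f ^ 2) / T := by rw [hB]; ring
      _ ≤ 30000000 * ((1 + (N:ℝ) ^ 2) * l1' f ^ 2) / T := by
          refine div_le_div_of_nonneg_right ?_ hT0.le
          refine mul_le_mul_of_nonneg_right (by norm_num) (by positivity)
  have h4 := h1.trans (add_le_add le_rfl h3)
  have h5 : (N:ℝ) ^ (2 * δ) * (N:ℝ) ^ (-(2 * δ)) = 1 := by
    rw [← Real.rpow_add (by linarith)]; simp
  have h6 : 0 < (N:ℝ) ^ (-(2 * δ)) := Real.rpow_pos_of_pos (by linarith) _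
  have h7 := mul_le_mul_of_nonneg_left h4 (by positivity : 0 ≤ 32 * (N:ℝ) ^ (-(2 * δ)))
  refine le_trans (le_of_eq ?_) h7
  have : ∀ I : ℝ, I = 32 * (N:ℝ) ^ (-(2 * δ)) * ((N:ℝ) ^ (2 * δ) / 32 * I) := by
    intro I
    calc I = ((N:ℝ) ^ (2 * δ) * (N:ℝ) ^ (-(2 * δ))) * I := by rw [h5, one_mul]
      _ = _ := by ring
  exact this _

section

variable {c y δ a : ℝ} {z J Rs N K : ℕ} {A0 : P1} {m : ℝ}

/-- on the line, integrated -/
lemma line_intS (h : Sy c z y J Rs N K) (hA : Bd1 m A0) (ha : |a| ≤ 2) {U H W : ℝ} (hH : 0 ≤ H)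
    (hW : Real.exp (Real.log y * (180 * ((Rs:ℝ) + 1))) ≤ W) :
    ∑ S ∈ (range J).powerset, ∫ t in U..(U + H), qd (fun s => es s (Pz z * A0 * Bz a z y J Rs S))
      (fun s => es s (DS N a z y J Rs A0 S)) (1 / 2) t ≤
    2 * l1' (Pz z * A0) ^ 2 * (∫ t in U..(U + H), ‖riemannZeta (cl t)‖ ^ 2 * gp J a (RR Rs) (IZ z y) t) +
      2 * (H * (∑ S ∈ (range J).powerset, ip 0 (DS N a z y J Rs A0 S) (DS N a z y J Rs A0 S)) +
      4 * (N:ℝ) ^ 3 * (l1' (Pz z * A0) ^ 2 * W)) := by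
  have hUH : U ≤ U + H := by linarith
  have hgc : Continuous fun t => gp J a (RR Rs) (IZ z y) t := by
    have := gpd_cont h 0 a
    simpa only [gpd_zero] using this
  have hDc : ∀ S, Continuous fun t : ℝ => ‖es (1 / 2 + (0:ℝ) + t * Complex.I) (DS N a z y J Rs A0 S)‖ ^ 2 :=
    fun S => es_cont0 0 (DS_Bd h hA S)
  have hqc : ∀ S, Continuous fun t : ℝ => qd (fun s => es s (Pz z * A0 * Bz a z y J Rs S))
      (fun s => es s (DS N a z y J Rs A0 S)) (1 / 2) t := fun S =>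
    qd_cont (es_diff (PB_Bd h hA S)) (es_diff (DS_Bd h hA S)) (by norm_num)
  rw [← intervalIntegral.integral_finsetSum fun S _ => (hqc S).intervalIntegrable _ _]
  have h1 : ∫ t in U..(U + H), ∑ S ∈ (range J).powerset, qd (fun s => es s (Pz z * A0 * Bz a z y J Rs S))
      (fun s => es s (DS N a z y J Rs A0 S)) (1 / 2) t ≤
      ∫ t in U..(U + H), (2 * l1' (Pz z * A0) ^ 2 * (‖riemannZeta (cl t)‖ ^ 2 * gp J a (RR Rs) (IZ z y) t) +
      2 * ∑ S ∈ (range J).powerset, ‖es (1 / 2 + (0:ℝ) + t * Complex.I) (DS N a z y J Rs A0 S)‖ ^ 2) := by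
    refine intervalIntegral.integral_mono_on hUH ?_ ?_ fun t _ => qd_line_sum h hA t
    · exact (continuous_finsetSum _ fun S _ => hqc S).intervalIntegrable _ _
    · exact ((continuous_const.mul (cl_cont_zeta.mul hgc)).add
        (continuous_const.mul (continuous_finsetSum _ fun S _ => hDc S))).intervalIntegrable _ _
  refine h1.trans ?_
  rw [intervalIntegral.integral_add, intervalIntegral.integral_const_mul, intervalIntegral.integral_const_mul,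
    intervalIntegral.integral_finsetSum fun S _ => (hDc S).intervalIntegrable _ _]
  · exact add_le_add le_rfl (mul_le_mul_of_nonneg_left (I1S h hA ha le_rfl hW) (by norm_num))
  · exact (continuous_const.mul (cl_cont_zeta.mul hgc)).intervalIntegrable _ _
  · exact (continuous_const.mul (continuous_finsetSum _ fun S _ => hDc S)).intervalIntegrable _ _

end

/-- the difference off the line -/
theorem hpaS {c η d m κ : ℝ} {z Rs : ℕ} {A0 : P1} (hz : 1000 ≤ z) (hRs : 1 ≤ Rs) (hκ : 0 < κ) (hκ1 : κ ≤ 1 / 16)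
    (hη : 0 < η) (hη1 : 180 * (η * ((Rs:ℝ) + 1)) ≤ κ) (hη2 : η * ((Rs:ℝ) + 1) ≤ 1 / 16000)
    (hd : 0 ≤ d) (hA : Bd1 m A0) (hAm : A0 ∈ SA1 (M1 (S0 z))) :
    ∃ C : ℝ, 0 < C ∧ ∀ᶠ T : ℝ in atTop, ∀ J : ℕ, Sy c z (yT η T) J Rs (NT T) (KT T) →
      |∑ i ∈ range J, vI (IZ z (yT η T) i) - Real.log (Real.log T)| ≤ d → vd 0 (Rst (NT T) (yT η T)) ≤ d →
      ET c z (yT η T) J Rs ≤ 1 → ∀ a : ℝ, |a| ≤ 1 → ∀ δ : ℝ, 1 / Real.log T ≤ δ → δ ≤ 1 / 16 →
      ∀ U H : ℝ, T / 4 ≤ U → U + H ≤ 4 * T → T ^ (1 / 2 + 3 * κ) ≤ H →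
      ∑ S ∈ (range J).powerset, ∫ t in U..(U + H),
        qd (fun s => es s (Pz z * A0 * Bz a z (yT η T) J Rs S))
          (fun s => es s (DS (NT T) a z (yT η T) J Rs A0 S)) (1 / 2 + δ) t ≤
        C * (H * Real.log T ^ ((1 + a) ^ 2)) * (NT T : ℝ) ^ (-(2 * δ)) := by
  obtain ⟨C1, hC1, hon⟩ := Pool.Agent.T6.H57.SM.s2m (c := c) hz hRs hκ hκ1 hη hη1 hd
  set LP := l1' (Pz z * A0) with hLP
  have hLP0 : 0 ≤ LP := l1'_nonneg _
  set A1 := (ip 0 A0 A0 + (2 ^ (S0 z).card * l1' A0) ^ 2) * Real.exp (6 * d + 1) with hA1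
  have hA10 : 0 ≤ A1 := by have := ip_self_nonneg 0 A0; positivity
  refine ⟨32 * (3 * (2 * LP ^ 2 * C1 + 2 * (A1 + 1)) + 1), by positivity, ?_⟩
  filter_upwards [hon, eventually_ge_atTop (10 ^ 10), NT_tendsto.eventually_ge_atTop (max 1 m),
    rpow_ev (p := 1 / 4 + 1 / 50) (q := 1) (by norm_num) (60000000 * LP ^ 2),
    rpow_ev (p := 3 / 8 + 1 / 50) (q := 1 / 2) (by norm_num) (4 * LP ^ 2),
    rpow_ev (p := 1 / 4) (q := 1) (by norm_num) 8,
    Real.tendsto_log_atTop.eventually_ge_atTop 1] with T h1 h3 h4 h5 h6 h8 h7 J hS hV hW hE a ha δ hδ1 hδ2 U H hU hUH hH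
  have hT0 : 0 < T := by linarith
  have hT1 : 1 ≤ T := by linarith
  rw [Real.rpow_one] at h5 h8
  have hN1 : 1 ≤ NT T := by exact_mod_cast (le_max_left _ _).trans h4
  have hNm : m ≤ NT T := (le_max_right _ _).trans h4
  have ha2 : |a| ≤ 2 := by linarith
  have hU0 : 0 ≤ U := by linarith
  set y := yT η T with hy
  set N := NT T with hN
  set P := Real.log T ^ ((1 + a) ^ 2) with hP
  have hP1 : 1 ≤ P := Real.one_le_rpow h7 (sq_nonneg _)
  have hNr : 0 < (N:ℝ) := by exact_mod_cast hN1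
  have hex := ly_exp hT1 hη2
  rw [← hy] at hex
  set V := T ^ ((1:ℝ) / 4) with hV4
  have hV0 : 0 < V := by positivity
  have hTH : T ^ ((1:ℝ) / 2) ≤ H := le_trans (Real.rpow_le_rpow_of_exponent_le hT1 (by linarith)) hH
  have hVH : V ≤ H := le_trans (Real.rpow_le_rpow_of_exponent_le hT1 (by norm_num)) hTH
  have hH0 : 0 < H := lt_of_lt_of_le hV0 hVH
  have hH1 : 1 ≤ H := le_trans (Real.one_le_rpow hT1 (by norm_num)) hTH
  have g1 : ∀ S ∈ (range J).powerset, ∫ t in U..(U + H),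
      qd (fun s => es s (Pz z * A0 * Bz a z y J Rs S)) (fun s => es s (DS N a z y J Rs A0 S)) (1 / 2 + δ) t ≤
      32 * (N:ℝ) ^ (-(2 * δ)) * ((∫ t in (U - V)..((U - V) + (H + 2 * V)), qd (fun s => es s (Pz z * A0 * Bz a z y J Rs S))
        (fun s => es s (DS N a z y J Rs A0 S)) (1 / 2) t) +
        30000000 * (1 + (N:ℝ) ^ 2) / T * l1' (Pz z * A0 * Bz a z y J Rs S) ^ 2) := by
    intro S _
    have e0 : (U - V) + (H + 2 * V) = U + H + V := by ring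
    rw [e0]
    refine (hp_oneS hN1 (PB_Bd hS hA S) h3 hδ1 hδ2 hU0 hH0.le hUH).trans (le_of_eq ?_)
    unfold DS
    ring
  refine (sum_le_sum g1).trans ?_
  rw [← mul_sum, sum_add_distrib, ← mul_sum]
  have g2 := line_intS (a := a) hS hA ha2 (U := U - V) (H := H + 2 * V) (by linarith) hex
  have g3 := h1 J hS.zy hS.J1 hS.rg hV a ha (U - V) (H + 2 * V) (by linarith) (by linarith) (by linarith)
  have g4 := N1_line hS hV hW hE ha hA hAm hNm hd h7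
  rw [← hN, ← hy, ← hA1, ← hP] at g4
  have g5 := PB_l1 (A0 := A0) hS ha2
  rw [← hLP] at g2 g5
  have g6 : 30000000 * (1 + (N:ℝ) ^ 2) / T * (∑ S ∈ (range J).powerset, l1' (Pz z * A0 * Bz a z y J Rs S) ^ 2) ≤ 1 := by
    have k1 : (1 + (N:ℝ) ^ 2) ≤ 2 * T ^ ((1:ℝ) / 4) := by
      have k2 := NT_pow hT1 2
      rw [← hN] at k2
      have k3 : T ^ (((2:ℕ):ℝ) / 8) = T ^ ((1:ℝ) / 4) := by congr 1; norm_num
      rw [k3] at k2
      have k4 : 1 ≤ T ^ ((1:ℝ) / 4) := Real.one_le_rpow hT1 (by norm_num)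
      linarith
    calc _ ≤ 30000000 * (2 * T ^ ((1:ℝ) / 4)) / T * (LP ^ 2 * T ^ ((1:ℝ) / 50)) := by
          refine mul_le_mul ?_ (g5.trans (mul_le_mul_of_nonneg_left hex (sq_nonneg _))) ?_ (by positivity)
          · gcongr
          · exact sum_nonneg fun _ _ => sq_nonneg _
      _ = (60000000 * LP ^ 2 * T ^ ((1:ℝ) / 4 + 1 / 50)) / T := by rw [Real.rpow_add hT0]; ring
      _ ≤ 1 := by rw [div_le_one hT0]; exact h5
  have g7 : 4 * (N:ℝ) ^ 3 * (LP ^ 2 * T ^ ((1:ℝ) / 50)) ≤ H := by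
    have k2 := NT_pow hT1 3
    rw [← hN] at k2
    have k3 : T ^ (((3:ℕ):ℝ) / 8) = T ^ ((3:ℝ) / 8) := by congr 1
    rw [k3] at k2
    calc _ ≤ 4 * T ^ ((3:ℝ) / 8) * (LP ^ 2 * T ^ ((1:ℝ) / 50)) := by gcongr
      _ = 4 * LP ^ 2 * T ^ ((3:ℝ) / 8 + 1 / 50) := by rw [Real.rpow_add hT0]; ring
      _ ≤ T ^ ((1:ℝ) / 2) := h6
      _ ≤ H := hTH
  have hHP2 : H ≤ H * P := le_mul_of_one_le_right hH0.le hP1
  have hHP : 1 ≤ H * P := hH1.trans hHP2
  have g8 : (∑ S ∈ (range J).powerset, ∫ t in (U - V)..((U - V) + (H + 2 * V)), qd (fun s => es s (Pz z * A0 * Bz a z y J Rs S))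
        (fun s => es s (DS N a z y J Rs A0 S)) (1 / 2) t) ≤ 3 * (2 * LP ^ 2 * C1 + 2 * (A1 + 1)) * (H * P) := by
    refine g2.trans ?_
    have hH3 : H + 2 * V ≤ 3 * H := by linarith
    have k0 : C1 * ((H + 2 * V) * P) ≤ C1 * ((3 * H) * P) := by gcongr
    have k1 := mul_le_mul_of_nonneg_left (g3.trans k0) (by positivity : 0 ≤ 2 * LP ^ 2)
    have k2 : (H + 2 * V) * (∑ S ∈ (range J).powerset, ip 0 (DS N a z y J Rs A0 S) (DS N a z y J Rs A0 S)) ≤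
        (3 * H) * (A1 * P) := by
      refine mul_le_mul hH3 g4 (sum_nonneg fun S _ => ip_self_nonneg 0 _) (by positivity)
    have k3 : (3 * H) * (A1 * P) = 3 * (A1 * (H * P)) := by ring
    rw [k3] at k2
    have k4 : 2 * LP ^ 2 * (C1 * ((3 * H) * P)) = 3 * (2 * LP ^ 2 * C1 * (H * P)) := by ring
    rw [k4] at k1
    linarith only [k1, k2, g7, hHP2, hHP]
  have g9 : 0 ≤ 32 * (N:ℝ) ^ (-(2 * δ)) := by positivity
  calc _ ≤ 32 * (N:ℝ) ^ (-(2 * δ)) * (3 * (2 * LP ^ 2 * C1 + 2 * (A1 + 1)) * (H * P) + 1 * (H * P)) := by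
        refine mul_le_mul_of_nonneg_left (add_le_add g8 ?_) g9
        linarith
    _ = _ := by ring

end Pool.Agent.T6.H57.NS
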