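import Pool.Agent.T6.H57.NS.Iv

set_option autoImplicit false

/-! The half-plane inequality for powers of zeta over windows. -/

namespace Pool.Agent.T6.H57.NS

open Finset Filter MeasureTheory
open Pool.Agent.W184.NZ
open Pool.Agent.W184 (zn zn_nonneg zn_cont zn_le zn_le' zn_neg tail_int KP KP_cont KP_nonneg KP_le KP_int)
open Pool.Agent.Y755

lemma zeta_far {z : ℂ} (hz : 2 ≤ z.re) : ‖riemannZeta z‖ ≤ ∑' n : ℕ, 1 / (n : ℝ) ^ 2 := by
  rw [zeta_eq_tsum_one_div_nat_cpow (by linarith)]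
  have hs : Summable fun n : ℕ => 1 / (n : ℝ) ^ 2 := Real.summable_one_div_nat_pow.mpr (by norm_num)
  have h1 : ∀ n : ℕ, ‖1 / (n : ℂ) ^ z‖ ≤ 1 / (n : ℝ) ^ 2 := by
    intro n
    rcases Nat.eq_zero_or_pos n with h0 | h0
    · subst h0
      have hz0 : z ≠ 0 := by rintro rfl; simp at hz; linarith
      simp [Complex.zero_cpow hz0]
    · rw [norm_div, norm_one, Complex.norm_natCast_cpow_of_pos h0]
      have hn : (1:ℝ) ≤ n := by exact_mod_cast h0
      refine one_div_le_one_div_of_le (by positivity) ?_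
      rw [← Real.rpow_natCast]
      exact Real.rpow_le_rpow_of_exponent_le hn (by push_cast; linarith)
  exact tsum_of_norm_bounded hs.hasSum h1

lemma zp_growth {p : ℝ} (hp : 0 < p) (hp2 : p ≤ 2) (x : ℝ) : zn (1 / 2) x ^ p ≤ 289 * (1 + x ^ 2) := by
  have h1 := zn_le' (σ := 1 / 2) (t := x) (by norm_num) (by norm_num)
  have h0 := zn_nonneg (1 / 2) x
  have h2 : zn (1 / 2) x ^ 2 ≤ 288 * (1 + x ^ 2) := by
    have h3 : zn (1 / 2) x ^ 2 ≤ (12 * (1 + |x|)) ^ 2 := pow_le_pow_left₀ h0 h1 2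
    have h4 : (12 * (1 + |x|)) ^ 2 ≤ 288 * (1 + x ^ 2) := by
      have := sq_abs x
      nlinarith [sq_nonneg (1 - |x|)]
    linarith
  rcases le_or_gt (zn (1 / 2) x) 1 with h5 | h5
  · have h6 : zn (1 / 2) x ^ p ≤ 1 := Real.rpow_le_one h0 h5 hp.le
    nlinarith [sq_nonneg x]
  · have h6 : zn (1 / 2) x ^ p ≤ zn (1 / 2) x ^ (2:ℝ) := Real.rpow_le_rpow_of_exponent_le h5.le hp2
    rw [Real.rpow_two] at h6
    nlinarith [sq_nonneg x]

/-- the factor -/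
lemma fac_low {p Δ : ℝ} {M : ℕ} (hp : 0 < p) (hp2 : p ≤ 2) (hM : M * p ≤ 18) (h0 : 0 < Δ) (h1 : Δ ≤ 1 / 16) :
    1 - 100 * Δ ≤ ((1 - 8 * Δ) * (1:ℝ) ^ Δ / (1 + Δ) ^ (2 * M)) ^ p := by
  rw [Real.one_rpow, mul_one]
  have h8 : 0 < 1 - 8 * Δ := by linarith
  rw [Real.div_rpow h8.le (by positivity), ← Real.rpow_natCast (1 + Δ), ← Real.rpow_mul (by positivity)]
  have h2 : (1 - 8 * Δ) ^ 2 ≤ (1 - 8 * Δ) ^ p := by
    rw [← Real.rpow_two]
    exact Real.rpow_le_rpow_of_exponent_ge h8 (by linarith) hp2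
  have h3 : (1 + Δ) ^ (((2 * M : ℕ) : ℝ) * p) ≤ Real.exp (36 * Δ) := by
    rw [Real.rpow_def_of_pos (by linarith)]
    refine Real.exp_le_exp.mpr ?_
    have h4 : Real.log (1 + Δ) ≤ Δ := by
      have := Real.log_le_sub_one_of_pos (show 0 < 1 + Δ by linarith)
      linarith
    have h5 : 0 ≤ Real.log (1 + Δ) := Real.log_nonneg (by linarith)
    have h6 : ((2 * M : ℕ) : ℝ) * p ≤ 36 := by push_cast; linarith
    have h7 : 0 ≤ ((2 * M : ℕ) : ℝ) * p := by positivity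
    calc Real.log (1 + Δ) * (((2 * M : ℕ) : ℝ) * p) ≤ Δ * 36 := mul_le_mul h4 h6 h7 h0.le
      _ = _ := by ring
  have h4 : 0 < (1 + Δ) ^ (((2 * M : ℕ) : ℝ) * p) := Real.rpow_pos_of_pos (by linarith) _
  rw [le_div_iff₀ h4]
  rcases le_or_gt (1 - 100 * Δ) 0 with h5 | h5
  · have := mul_nonpos_of_nonpos_of_nonneg h5 h4.le
    have h6 : 0 ≤ (1 - 8 * Δ) ^ p := Real.rpow_nonneg h8.le _
    linarith
  · have h6 : Real.exp (36 * Δ) * (1 - 36 * Δ) ≤ 1 := by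
      have h7 := Real.add_one_le_exp (-(36 * Δ))
      have h8 : Real.exp (36 * Δ) * Real.exp (-(36 * Δ)) = 1 := by rw [← Real.exp_add]; simp
      have h9 : Real.exp (36 * Δ) * (1 - 36 * Δ) ≤ Real.exp (36 * Δ) * Real.exp (-(36 * Δ)) :=
        mul_le_mul_of_nonneg_left (by linarith) (Real.exp_pos _).le
      linarith
    have h36 : 0 < 1 - 36 * Δ := by linarith
    have h7 : 1 - 100 * Δ ≤ (1 - 8 * Δ) ^ 2 * (1 - 36 * Δ) := by nlinarith [mul_pos h0 h0, mul_pos h0 h36]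
    calc (1 - 100 * Δ) * (1 + Δ) ^ (((2 * M : ℕ) : ℝ) * p) ≤ ((1 - 8 * Δ) ^ 2 * (1 - 36 * Δ)) * Real.exp (36 * Δ) :=
          mul_le_mul h7 h3 h4.le (by positivity)
      _ = (1 - 8 * Δ) ^ 2 * (Real.exp (36 * Δ) * (1 - 36 * Δ)) := by ring
      _ ≤ (1 - 8 * Δ) ^ 2 * 1 := mul_le_mul_of_nonneg_left h6 (sq_nonneg _)
      _ ≤ _ := by rw [mul_one]; exact h2

/-- integrated form over a window -/
theorem hp_pow {p Δ a b U : ℝ} (hp : 0 < p) (hp2 : p ≤ 2) (h0 : 0 < Δ) (h1 : Δ ≤ 1 / 200) (hab : a ≤ b) (hU : 1 ≤ U) :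
    (1 - 100 * Δ) * ∫ t in a..b, zn (1 / 2 + Δ) t ^ p ≤
      (∫ t in (a - U)..(b + U), zn (1 / 2) t ^ p) +
      (b - a) * (2 * (2 * 289 * (1 + a ^ 2)) * (1 + (b - a) ^ 2)) * (Real.pi * (1 / Δ) * (U ^ 28)⁻¹) := by
  obtain ⟨M, hM1, hM2, hM3⟩ : ∃ M : ℕ, 1 ≤ M ∧ 16 ≤ M * p ∧ M * p ≤ 18 := by
    refine ⟨⌈16 / p⌉₊, ?_, ?_, ?_⟩
    · rw [Nat.one_le_ceil_iff]; positivity
    · have := Nat.le_ceil (16 / p)
      rwa [div_le_iff₀ hp] at this
    · have := (Nat.ceil_lt_add_one (show 0 ≤ 16 / p by positivity)).le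
      calc (⌈16 / p⌉₊ : ℝ) * p ≤ (16 / p + 1) * p := mul_le_mul_of_nonneg_right this hp.le
        _ = 16 + p := by field_simp
        _ ≤ 18 := by linarith
  set K : ℝ → ℝ := fun w => KP Δ w * (1 + w ^ 2) ^ (-(M * p)) with hKe
  have hKc : Continuous K := by
    rw [hKe]
    refine (KP_cont h0).mul ?_
    refine Continuous.rpow_const (by fun_prop) fun w => Or.inl ?_
    positivity
  have hpw : ∀ w : ℝ, (1 + w ^ 2) ^ (-(M * p)) ≤ 1 := fun w =>
    Real.rpow_le_one_of_one_le_of_nonpos (by nlinarith [sq_nonneg w]) (by linarith)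
  have hpw2 : ∀ w : ℝ, (1 + w ^ 2) ^ (-(M * p)) ≤ (1 + w ^ 2) ^ (-(16:ℝ)) := fun w =>
    Real.rpow_le_rpow_of_exponent_le (by nlinarith [sq_nonneg w]) (by linarith)
  have hK0 : ∀ w, 0 ≤ K w := by
    intro w
    rw [hKe]
    exact mul_nonneg (KP_nonneg h0 w) (by positivity)
  have hKb : ∀ w, K w ≤ (1 / Δ) * (1 + w ^ 2) ^ (-(16:ℝ)) := by
    intro w
    rw [hKe]
    exact mul_le_mul (KP_le h0 w) (hpw2 w) (by positivity) (by positivity)
  obtain ⟨i1, -, -⟩ := tail_int (A := 1 / Δ) (U := U) (by positivity) hU hKc hK0 hKb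
  obtain ⟨i2, i3⟩ := tail_int2 (A := 1 / Δ) (U := U) (by positivity) hU hKc hK0 hKb
  have hKm : ∫ w, K w ≤ 1 := by
    obtain ⟨j1, j2⟩ := KP_int h0
    rw [← j2]
    refine integral_mono i1 j1 fun w => ?_
    rw [hKe]
    exact mul_le_of_le_one_right (KP_nonneg h0 w) (hpw w)
  have hc0 : Continuous fun t => zn (1 / 2) t ^ p := znp_cont (by norm_num) hp.le
  have hc1 : Continuous fun t => zn (1 / 2 + Δ) t ^ p := znp_cont (by linarith) hp.le
  set fac : ℝ := 1 - 100 * Δ with hfac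
  have hfl := fac_low (M := M) hp hp2 hM3 h0 (by linarith)
  have hpt : ∀ t ∈ Set.Icc 0 (b - a), fac * zn (1 / 2 + Δ) (t + a) ^ p ≤ ∫ w, K w * zn (1 / 2) (t + w + a) ^ p := by
    intro t _
    have h2 := half_ptB (Q := fun _ => 0) (A := fun _ => 1) (N := 1) (C1 := 0) (C2 := ∑' n : ℕ, 1 / (n : ℝ) ^ 2) (CA := 1)
      (t := t + a) (M := M) (p := p) hp le_rfl hM1 (by fun_prop) (fun z _ => by simp) (by fun_prop) (fun z _ => by simp)
      (fun z hz => by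
        rw [mul_one, sub_zero, Real.one_rpow, mul_one]
        exact zeta_far hz) h0 (by linarith)
    simp only [mul_one, sub_zero] at h2
    have h3 : fac * zn (1 / 2 + Δ) (t + a) ^ p ≤ ((1 - 8 * Δ) * (1:ℝ) ^ Δ / (1 + Δ) ^ (2 * M)) ^ p * zn (1 / 2 + Δ) (t + a) ^ p :=
      mul_le_mul_of_nonneg_right hfl (Real.rpow_nonneg (zn_nonneg _ _) _)
    refine h3.trans (le_trans (le_of_eq ?_) (h2.trans (le_of_eq ?_)))
    · unfold zn
      rfl
    · refine integral_congr_ae (Filter.Eventually.of_forall fun w => ?_)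
      simp only [hKe, zn]
      congr 3
      have e2 : ((t + a + w : ℝ) : ℂ) = ((t + w + a : ℝ) : ℂ) := by push_cast; ring
      rw [e2]
  have hGB' : ∀ x, zn (1 / 2) (x + a) ^ p ≤ (2 * 289 * (1 + a ^ 2)) * (1 + x ^ 2) := by
    intro x
    refine (zp_growth hp hp2 (x + a)).trans ?_
    nlinarith [sq_nonneg (x - a), mul_nonneg (sq_nonneg x) (sq_nonneg a)]
  have hmain := avg_le2 (K := K) (G := fun x => zn (1 / 2) (x + a) ^ p) (H := fun t => fac * zn (1 / 2 + Δ) (t + a) ^ p)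
    (T := b - a) (U := U) (B := 2 * 289 * (1 + a ^ 2)) (by linarith) (by linarith) (by positivity) hKc hK0 i2 i1
    (hc0.comp (by fun_prop)) (fun x => Real.rpow_nonneg (zn_nonneg _ _) _) hGB'
    (continuous_const.mul (hc1.comp (by fun_prop))) hpt
  have e3 : ∫ t in (0:ℝ)..(b - a), zn (1 / 2 + Δ) (t + a) ^ p = ∫ t in a..b, zn (1 / 2 + Δ) t ^ p := by
    rw [intervalIntegral.integral_comp_add_right (fun t => zn (1 / 2 + Δ) t ^ p)]
    congr 1 <;> ring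
  have e4 : ∫ t in (-U)..(b - a + U), zn (1 / 2) (t + a) ^ p = ∫ t in (a - U)..(b + U), zn (1 / 2) t ^ p := by
    rw [intervalIntegral.integral_comp_add_right (fun t => zn (1 / 2) t ^ p)]
    congr 1 <;> ring
  rw [intervalIntegral.integral_const_mul, e3, e4] at hmain
  refine hmain.trans (add_le_add ?_ (mul_le_mul_of_nonneg_left i3 ?_))
  · have hE0 : 0 ≤ ∫ t in (a - U)..(b + U), zn (1 / 2) t ^ p :=
      intervalIntegral.integral_nonneg (by linarith) fun x _ => Real.rpow_nonneg (zn_nonneg _ _) _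
    exact mul_le_of_le_one_left hE0 hKm
  · have : 0 ≤ b - a := by linarith
    positivity

end Pool.Agent.T6.H57.NS
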