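import Pool.Agent.T6.H57.NS.Chain

set_option autoImplicit false

/-! Near the line: the asymptotics over intervals of the positive half line, and for shifts. -/

namespace Pool.Agent.T6.H57.NS

open Finset Filter MeasureTheory
open Pool.Agent.W184.NZ
open Pool.Agent.W184 (zn zn_nonneg zn_cont zn_le' zn_neg)
open Pool.Agent.Y755

/-- the exponent -/
lemma kap_ex {A : ℝ} (hA : 1 ≤ A) (hA2 : A < 2) : ∃ κ : ℝ, 0 < κ ∧ κ ≤ 1 / 16 ∧ A * (1 / 2 + 3 * κ) < 1 := by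
  have h1 : 0 < 1 - A / 2 := by linarith
  refine ⟨min (1 / 16) ((1 - A / 2) / 12), lt_min (by norm_num) (by linarith), min_le_left _ _, ?_⟩
  have h2 := min_le_right (1 / 16) ((1 - A / 2) / 12)
  set κ := min (1 / 16) ((1 - A / 2) / 12)
  have h3 : A * κ ≤ 2 * ((1 - A / 2) / 12) := by
    have h4 : A * κ ≤ A * ((1 - A / 2) / 12) := mul_le_mul_of_nonneg_left h2 (by linarith)
    have h5 : A * ((1 - A / 2) / 12) ≤ 2 * ((1 - A / 2) / 12) := mul_le_mul_of_nonneg_right hA2.le (by linarith)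
    linarith
  have e : A * (1 / 2 + 3 * κ) = A / 2 + 3 * (A * κ) := by ring
  rw [e]
  linarith

/-- lengths of the windows -/
lemma len_ev {A κ e : ℝ} (hκ : 0 < κ) (hκ1 : κ ≤ 1 / 16) (hq : A * (1 / 2 + 3 * κ) < 1) (he : 0 < e) {P : ℝ → Prop}
    (hP : ∀ᶠ X : ℝ in atTop, P X) :
    ∀ᶠ T : ℝ in atTop, 4 ≤ T ∧ ∀ U : ℝ, e * T ≤ U → U ≤ 3 * T ^ A →
      P (2 * U) ∧ (2 * U) ^ (1 / 2 + 3 * κ) ≤ e * T ∧ Real.log T ≤ 2 * Real.log (2 * U) ∧ 1 ≤ 2 * U ∧
      Real.log (2 * U) ≤ (2 + A) * Real.log T := by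
  rw [eventually_atTop] at hP
  obtain ⟨X0, hX0⟩ := hP
  have ht : Tendsto (fun T : ℝ => e * T) atTop atTop := tendsto_id.const_mul_atTop he
  filter_upwards [ht.eventually_ge_atTop X0, ht.eventually_ge_atTop 1, rpow_ev (p := A * (1 / 2 + 3 * κ)) (q := 1) hq (6 / e),
    rpow_ev (p := 1 / 2) (q := 1) (by norm_num) (1 / e), eventually_ge_atTop 6] with T h1 h2 h3 h4 h5
  refine ⟨by linarith, fun U hU1 hU2 => ?_⟩
  have hT0 : 0 < T := by linarith
  have hT1 : 1 ≤ T := by linarith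
  have hU0 : 0 < U := by linarith
  rw [Real.rpow_one] at h3 h4
  refine ⟨hX0 _ (by linarith), ?_, ?_, by linarith, ?_⟩
  · have hA6 : 2 * U ≤ 6 * T ^ A := by linarith
    have hp : 0 ≤ 1 / 2 + 3 * κ := by linarith
    calc (2 * U) ^ (1 / 2 + 3 * κ) ≤ (6 * T ^ A) ^ (1 / 2 + 3 * κ) :=
          Real.rpow_le_rpow (by linarith) hA6 hp
      _ = 6 ^ (1 / 2 + 3 * κ) * T ^ (A * (1 / 2 + 3 * κ)) := by
          rw [Real.mul_rpow (by norm_num) (by positivity), ← Real.rpow_mul hT0.le]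
      _ ≤ 6 * T ^ (A * (1 / 2 + 3 * κ)) := by
          refine mul_le_mul_of_nonneg_right ?_ (by positivity)
          have := Real.rpow_le_rpow_of_exponent_le (show (1:ℝ) ≤ 6 by norm_num) (show 1 / 2 + 3 * κ ≤ 1 by linarith)
          rwa [Real.rpow_one] at this
      _ = e * (6 / e * T ^ (A * (1 / 2 + 3 * κ))) := by field_simp
      _ ≤ e * T := mul_le_mul_of_nonneg_left h3 he.le
  · have h6 : T ^ ((1:ℝ) / 2) ≤ 2 * U := by
      have h7 := mul_le_mul_of_nonneg_left h4 he.le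
      have e1 : e * (1 / e * T ^ ((1:ℝ) / 2)) = T ^ ((1:ℝ) / 2) := by field_simp
      rw [e1] at h7
      linarith
    have h8 := Real.log_le_log (by positivity) h6
    rw [Real.log_rpow hT0] at h8
    linarith
  · have h6 : 2 * U ≤ T ^ (2 + A) := by
      calc 2 * U ≤ 6 * T ^ A := by linarith
        _ ≤ T ^ (2:ℝ) * T ^ A := by
            refine mul_le_mul_of_nonneg_right ?_ (by positivity)
            rw [Real.rpow_two]; nlinarith
        _ = T ^ (2 + A) := by rw [← Real.rpow_add hT0]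
    have h7 := Real.log_le_log (by linarith) h6
    rwa [Real.log_rpow hT0] at h7

/-- windows with parameters -/
theorem win_ev {α : ℝ} (hα : 0 < α) (hα2 : α ≤ 2) {A : ℝ} (hA : 1 ≤ A) (hA2 : A < 2) {ε e : ℝ} (hε : 0 < ε) (he : 0 < e) :
    ∃ lam : ℝ, 1 ≤ lam ∧ ∀ᶠ T : ℝ in atTop, ∀ δ : ℝ, lam / Real.log T ≤ δ → δ ≤ 1 / 16 →
      ∀ U H : ℝ, e * T ≤ U → e * T ≤ H → U + H ≤ 8 * U → U + H ≤ 3 * T ^ A →
      ((1 - ε) * DD α δ) * H ≤ ∫ t in U..(U + H), zn (1 / 2 + δ) t ^ (2 * α) ∧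
      (α ≤ 1 → ∫ t in U..(U + H), zn (1 / 2 + δ) t ^ (2 * α) ≤ ((1 + ε) * DD α δ) * H) := by
  obtain ⟨κ, hκ, hκ1, hq⟩ := kap_ex hA hA2
  set e' := min (ε / 64) (1 / 10) with he'
  have he0 : 0 < e' := lt_min (by positivity) (by norm_num)
  have he1 : 64 * e' ≤ ε := by have := min_le_left (ε / 64) (1 / 10); linarith
  obtain ⟨lam, hl1, hw⟩ := win_mainS hα hα2 hκ hκ1 he0 (min_le_right _ _)
  refine ⟨2 * lam, by linarith, ?_⟩
  filter_upwards [len_ev hκ hκ1 hq he hw] with T h δ hδ1 hδ2 U H hU hH hUH hB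
  obtain ⟨hT4, h⟩ := h
  have hT0 : 0 < T := by linarith
  have hH0 : 0 < H := lt_of_lt_of_le (by positivity) hH
  obtain ⟨h1, h2, h3, h4, -⟩ := h U hU (by linarith)
  have hL0 : 0 < Real.log T := Real.log_pos (by linarith)
  have hδ0 : 0 < δ := lt_of_lt_of_le (div_pos (by linarith) hL0) hδ1
  have h5 : lam / Real.log (2 * U) ≤ δ := by
    refine le_trans ?_ hδ1
    rw [div_le_div_iff₀ (by linarith) hL0]
    nlinarith
  obtain ⟨g1, g2⟩ := h1 δ h5 hδ2 U H (by linarith) (by linarith) (h2.trans hH)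
  have hD := DD_ge_one hα hδ0
  have hHD : 0 ≤ H * DD α δ := by positivity
  constructor
  · refine le_trans ?_ g1
    calc ((1 - ε) * DD α δ) * H = (1 - ε) * (H * DD α δ) := by ring
      _ ≤ _ := mul_le_mul_of_nonneg_right (by linarith) hHD
  · intro hα1
    refine (g2 hα1).trans ?_
    calc (1 + 13 * e') * (H * DD α δ) ≤ (1 + ε) * (H * DD α δ) := mul_le_mul_of_nonneg_right (by linarith) hHD
      _ = _ := by ring

/-- lower bound over intervals -/
theorem iv_low {α : ℝ} (hα : 0 < α) (hα2 : α ≤ 2) {A : ℝ} (hA : 1 ≤ A) (hA2 : A < 2) {ε : ℝ} (hε : 0 < ε) (hε1 : ε ≤ 1) :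
    ∃ lam : ℝ, 1 ≤ lam ∧ ∀ᶠ T : ℝ in atTop, ∀ δ : ℝ, lam / Real.log T ≤ δ → δ ≤ 1 / 16 →
      ∀ a b : ℝ, 0 ≤ a → a ≤ b → b ≤ 3 * T ^ A →
      (1 - ε) * DD α δ * (b - a - ε * T) ≤ ∫ t in a..b, zn (1 / 2 + δ) t ^ (2 * α) := by
  obtain ⟨lam, hl1, hw⟩ := win_ev hα hα2 hA hA2 hε (e := ε / 2) (by positivity)
  refine ⟨lam, hl1, ?_⟩
  filter_upwards [hw, eventually_ge_atTop 3] with T h hT3 δ hδ1 hδ2 a b ha hab hb
  have hT0 : 0 < T := by linarith
  have hL0 : 0 < Real.log T := Real.log_pos (by linarith)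
  have hδ0 : 0 < δ := lt_of_lt_of_le (div_pos (by linarith) hL0) hδ1
  have hD := DD_ge_one hα hδ0
  have hc : Continuous fun t => zn (1 / 2 + δ) t ^ (2 * α) := znp_cont (by linarith) (by linarith)
  have hk : 0 ≤ (1 - ε) * DD α δ := mul_nonneg (by linarith) (by linarith)
  rcases le_or_gt (b - a - ε * T) 0 with h1 | h1
  · have h2 : 0 ≤ ∫ t in a..b, zn (1 / 2 + δ) t ^ (2 * α) :=
      intervalIntegral.integral_nonneg hab fun t _ => Real.rpow_nonneg (zn_nonneg _ _) _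
    have h3 := mul_nonpos_of_nonneg_of_nonpos hk h1
    linarith
  · have h2 := chain hc (k := (1 - ε) * DD α δ) (a0 := ε / 2 * T) (B := 3 * T ^ A) (by positivity)
      (fun U H h1 h2 h3 h4 => (h δ hδ1 hδ2 U H h1 h2 h3 h4).1) (a + ε / 2 * T) b (by linarith) (by linarith) hb
    have h3 : ∫ t in (a + ε / 2 * T)..b, zn (1 / 2 + δ) t ^ (2 * α) ≤ ∫ t in a..b, zn (1 / 2 + δ) t ^ (2 * α) :=
      intervalIntegral.integral_mono_interval (by nlinarith) (by nlinarith) le_rfl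
        (Filter.Eventually.of_forall fun t => Real.rpow_nonneg (zn_nonneg _ _) _) (hc.intervalIntegrable _ _)
    have h4 : (1 - ε) * DD α δ * (b - a - ε * T) ≤ (1 - ε) * DD α δ * (b - (a + ε / 2 * T)) :=
      mul_le_mul_of_nonneg_left (by nlinarith) hk
    linarith

/-- upper bound over intervals -/
theorem iv_up {α : ℝ} (hα : 0 < α) (hα1 : α ≤ 1) {A : ℝ} (hA : 1 ≤ A) (hA2 : A < 2) {ε : ℝ} (hε : 0 < ε) (hε1 : ε ≤ 1) :
    ∃ lam : ℝ, 1 ≤ lam ∧ ∀ᶠ T : ℝ in atTop, ∀ δ : ℝ, lam / Real.log T ≤ δ → δ ≤ 1 / 16 →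
      ∀ a b : ℝ, 0 ≤ a → a ≤ b → b ≤ 2 * T ^ A →
      ∫ t in a..b, zn (1 / 2 + δ) t ^ (2 * α) ≤ (1 + ε) * DD α δ * (b - a + ε * T) := by
  obtain ⟨lam, hl1, hw⟩ := win_ev hα (by linarith) hA hA2 hε (e := ε / 3) (by positivity)
  obtain ⟨lam', hl1', hw'⟩ := full_up hα hα1 hε
  have hlm := le_max_left lam (2 * lam')
  have hlm' := le_max_right lam (2 * lam')
  refine ⟨max lam (2 * lam'), by linarith, ?_⟩
  have ht : Tendsto (fun T : ℝ => ε / 3 * T) atTop atTop := tendsto_id.const_mul_atTop (by positivity)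
  filter_upwards [hw, ht.eventually hw', eventually_ge_atTop 3, rpow_ev (p := 1 / 2) (q := 1) (by norm_num) (1 / (ε / 3)),
    ht.eventually_ge_atTop 3] with T h h' hT3 hr ht3 δ hδ1 hδ2 a b ha hab hb
  have hT0 : 0 < T := by linarith
  have hT1 : 1 ≤ T := by linarith
  have hL0 : 0 < Real.log T := Real.log_pos (by linarith)
  have hδ0 : 0 < δ := lt_of_lt_of_le (div_pos (by linarith) hL0) hδ1
  have hδl : lam / Real.log T ≤ δ := (div_le_div_of_nonneg_right hlm hL0.le).trans hδ1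
  have hδl' : 2 * lam' / Real.log T ≤ δ := (div_le_div_of_nonneg_right hlm' hL0.le).trans hδ1
  have hD := DD_ge_one hα hδ0
  set D := DD α δ
  have hc : Continuous fun t => zn (1 / 2 + δ) t ^ (2 * α) := znp_cont (by linarith) (by linarith)
  have hi : ∀ a b : ℝ, IntervalIntegrable (fun t => zn (1 / 2 + δ) t ^ (2 * α)) volume a b := fun a b =>
    hc.intervalIntegrable _ _
  have hmono : ∀ a b a' b' : ℝ, a' ≤ a → a ≤ b → b ≤ b' → ∫ t in a..b, zn (1 / 2 + δ) t ^ (2 * α) ≤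
      ∫ t in a'..b', zn (1 / 2 + δ) t ^ (2 * α) := fun a b a' b' h1 h2 h3 =>
    intervalIntegral.integral_mono_interval h1 h2 h3
        (Filter.Eventually.of_forall fun t => Real.rpow_nonneg (zn_nonneg _ _) _) (hi _ _)
  have hk : 0 ≤ (1 + ε) * D := mul_nonneg (by linarith) (by linarith)
  have hTA : T ≤ T ^ A := by
    have := Real.rpow_le_rpow_of_exponent_le hT1 hA
    rwa [Real.rpow_one] at this
  set a0 := ε / 3 * T with ha0
  have ha0p : 0 < a0 := by positivity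
  have ha0T : 3 * a0 ≤ T := by rw [ha0]; nlinarith
  have hch : ∀ a b : ℝ, a0 ≤ a → a + a0 ≤ b → b ≤ 3 * T ^ A →
      ∫ t in a..b, zn (1 / 2 + δ) t ^ (2 * α) ≤ (1 + ε) * D * (b - a) := by
    intro a b h1 h2 h3
    exact chain_up hc (k := (1 + ε) * D) (a0 := a0) (B := 3 * T ^ A) ha0p
      (fun U H h1 h2 h3 h4 => (h δ hδl hδ2 U H h1 h2 h3 h4).2 hα1) a b h1 h2 h3
  rcases le_or_gt a0 a with h1 | h1
  · rcases le_or_gt (a + a0) b with h2 | h2
    · refine (hch a b h1 h2 (by linarith [Real.rpow_nonneg hT0.le A])).trans ?_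
      exact mul_le_mul_of_nonneg_left (by nlinarith) hk
    · refine (hmono a b a (a + a0) le_rfl hab h2.le).trans ?_
      refine (hch a (a + a0) h1 le_rfl (by linarith)).trans ?_
      exact mul_le_mul_of_nonneg_left (by nlinarith) hk
  · have hf := h' δ (by
      refine le_trans ?_ hδl'
      have h6 : T ^ ((1:ℝ) / 2) ≤ a0 := by
        rw [Real.rpow_one] at hr
        have h7 := mul_le_mul_of_nonneg_left hr (by positivity : 0 ≤ ε / 3)
        have e1 : ε / 3 * (1 / (ε / 3) * T ^ ((1:ℝ) / 2)) = T ^ ((1:ℝ) / 2) := by field_simp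
        rwa [e1] at h7
      have h8 := Real.log_le_log (by positivity) h6
      rw [Real.log_rpow hT0] at h8
      rw [div_le_div_iff₀ (by linarith) hL0]
      nlinarith) hδ2
    set b' := max b (2 * a0) with hb'
    have hb1 : b ≤ b' := le_max_left _ _
    have hb2 : 2 * a0 ≤ b' := le_max_right _ _
    have hb3 : b' ≤ (b - a) + 2 * a0 := by
      rw [hb']
      refine max_le (by linarith) (by linarith)
    have h5 := hch a0 b' le_rfl (by linarith) (by
      rw [hb']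
      refine max_le (by linarith [Real.rpow_nonneg hT0.le A]) (by linarith))
    have h6 := intervalIntegral.integral_add_adjacent_intervals (hi 0 a0) (hi a0 b')
    refine (hmono a b 0 b' ha hab hb1).trans ?_
    rw [← h6]
    have h7 : (1 + ε) * D * (b' - a0) + (1 + ε) * (a0 * D) ≤ (1 + ε) * D * (b - a + ε * T) := by
      have : (1 + ε) * D * (b' - a0) + (1 + ε) * (a0 * D) = (1 + ε) * D * b' := by ring
      rw [this]
      exact mul_le_mul_of_nonneg_left (by nlinarith) hk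
    linarith

/-- the shifted means near the line -/
theorem sh_low {α : ℝ} (hα : 0 < α) (hα2 : α ≤ 2) {A : ℝ} (hA : 1 ≤ A) (hA2 : A < 2) {ε : ℝ} (hε : 0 < ε) :
    ∃ lam : ℝ, 1 ≤ lam ∧ ∀ᶠ T : ℝ in atTop, ∀ δ : ℝ, lam / Real.log T ≤ δ → δ ≤ 1 / 16 → ∀ x : ℝ, |x| ≤ T ^ A →
      (1 - ε) * DD α δ ≤ mom (2 * α) (1 / 2 + δ) x T := by
  set e := min (ε / 3) 1 with he
  have he0 : 0 < e := lt_min (by positivity) (by norm_num)
  have he1 : e ≤ ε / 3 := min_le_left _ _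
  have he2 : e ≤ 1 := min_le_right _ _
  obtain ⟨lam, hl1, hw⟩ := iv_low hα hα2 hA hA2 he0 he2
  refine ⟨lam, hl1, ?_⟩
  filter_upwards [hw, eventually_ge_atTop 3] with T h hT3 δ hδ1 hδ2 x hx
  have hT0 : 0 < T := by linarith
  have hL0 : 0 < Real.log T := Real.log_pos (by linarith)
  have hδ0 : 0 < δ := lt_of_lt_of_le (div_pos (by linarith) hL0) hδ1
  have hD := DD_ge_one hα hδ0
  have hc : Continuous fun t => zn (1 / 2 + δ) t ^ (2 * α) := znp_cont (by linarith) (by linarith)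
  have hTA : T ≤ T ^ A := by
    have := Real.rpow_le_rpow_of_exponent_le (show 1 ≤ T by linarith) hA
    rwa [Real.rpow_one] at this
  obtain ⟨a₁, b₁, a₂, b₂, h1, h2, h3, h4, h5, h6, h7, h8⟩ := shift_two hc (fun t => by rw [zn_neg]) (x := x) hT0.le
  rw [mom_eq _ _ _ hT0, h8, inv_mul_eq_div, le_div_iff₀ hT0]
  have g1 := h δ hδ1 hδ2 a₁ b₁ h1 h2 (by linarith)
  have g2 := h δ hδ1 hδ2 a₂ b₂ h3 h4 (by linarith)
  set D := DD α δ
  have e3 : (1 - e) * D * (b₁ - a₁ - e * T) + (1 - e) * D * (b₂ - a₂ - e * T) = (1 - e) * D * ((1 - 2 * e) * T) := by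
    rw [← mul_add]
    congr 1
    linear_combination h7
  have e4 : (1 - ε) * D * T ≤ (1 - e) * D * ((1 - 2 * e) * T) := by
    have : 0 ≤ D * T := by positivity
    have h9 : (1 - e) * D * ((1 - 2 * e) * T) = ((1 - e) * (1 - 2 * e)) * (D * T) := by ring
    rw [h9]
    calc (1 - ε) * D * T = (1 - ε) * (D * T) := by ring
      _ ≤ _ := mul_le_mul_of_nonneg_right (by nlinarith) this
  linarith

/-- the shifted means near the line -/
theorem sh_up {α : ℝ} (hα : 0 < α) (hα1 : α ≤ 1) {A : ℝ} (hA : 1 ≤ A) (hA2 : A < 2) {ε : ℝ} (hε : 0 < ε) :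
    ∃ lam : ℝ, 1 ≤ lam ∧ ∀ᶠ T : ℝ in atTop, ∀ δ : ℝ, lam / Real.log T ≤ δ → δ ≤ 1 / 16 → ∀ x : ℝ, |x| ≤ T ^ A →
      mom (2 * α) (1 / 2 + δ) x T ≤ (1 + ε) * DD α δ := by
  set e := min (ε / 5) 1 with he
  have he0 : 0 < e := lt_min (by positivity) (by norm_num)
  have he1 : e ≤ ε / 5 := min_le_left _ _
  have he2 : e ≤ 1 := min_le_right _ _
  obtain ⟨lam, hl1, hw⟩ := iv_up hα hα1 hA hA2 he0 he2
  refine ⟨lam, hl1, ?_⟩
  filter_upwards [hw, eventually_ge_atTop 3] with T h hT3 δ hδ1 hδ2 x hx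
  have hT0 : 0 < T := by linarith
  have hL0 : 0 < Real.log T := Real.log_pos (by linarith)
  have hδ0 : 0 < δ := lt_of_lt_of_le (div_pos (by linarith) hL0) hδ1
  have hD := DD_ge_one hα hδ0
  have hc : Continuous fun t => zn (1 / 2 + δ) t ^ (2 * α) := znp_cont (by linarith) (by linarith)
  have hTA : T ≤ T ^ A := by
    have := Real.rpow_le_rpow_of_exponent_le (show 1 ≤ T by linarith) hA
    rwa [Real.rpow_one] at this
  obtain ⟨a₁, b₁, a₂, b₂, h1, h2, h3, h4, h5, h6, h7, h8⟩ := shift_two hc (fun t => by rw [zn_neg]) (x := x) hT0.le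
  rw [mom_eq _ _ _ hT0, h8, inv_mul_eq_div, div_le_iff₀ hT0]
  have g1 := h δ hδ1 hδ2 a₁ b₁ h1 h2 (by linarith)
  have g2 := h δ hδ1 hδ2 a₂ b₂ h3 h4 (by linarith)
  set D := DD α δ
  have e3 : (1 + e) * D * (b₁ - a₁ + e * T) + (1 + e) * D * (b₂ - a₂ + e * T) = (1 + e) * D * ((1 + 2 * e) * T) := by
    rw [← mul_add]
    congr 1
    linear_combination h7
  have e4 : (1 + e) * D * ((1 + 2 * e) * T) ≤ (1 + ε) * D * T := by
    have : 0 ≤ D * T := by positivity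
    have h9 : (1 + e) * D * ((1 + 2 * e) * T) = ((1 + e) * (1 + 2 * e)) * (D * T) := by ring
    rw [h9]
    calc _ ≤ (1 + ε) * (D * T) := mul_le_mul_of_nonneg_right (by nlinarith) this
      _ = _ := by ring
  linarith

end Pool.Agent.T6.H57.NS
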