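import Pool.Agent.T6.H57.NS.HpP
import Pool.Agent.T6.H57.NS.Wz

set_option autoImplicit false

/-! Lower bounds on the line over short windows. -/

namespace Pool.Agent.T6.H57.NS

open Finset Filter MeasureTheory
open Pool.Agent.W184.NZ
open Pool.Agent.W184 (zn zn_nonneg zn_cont zn_le' zn_neg)
open Pool.Agent.Y755

/-- from the line `Re s = 1/2 + λ / log T` to the critical line -/
theorem line_red {ρ : ℝ} (hρ : 0 < ρ) {lam : ℝ} (hlam : 1 ≤ lam) :
    ∀ᶠ T : ℝ in atTop, ∀ p : ℝ, 0 < p → p ≤ 2 → ∀ U H : ℝ, T / 4 ≤ U → U + H ≤ 4 * T → 2 * T ^ ((1:ℝ) / 4) ≤ H →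
      (1 - ρ) * ∫ t in (U + T ^ ((1:ℝ) / 4))..(U + H - T ^ ((1:ℝ) / 4)), zn (1 / 2 + lam / Real.log T) t ^ p ≤
      (∫ t in U..(U + H), zn (1 / 2) t ^ p) + ρ * H := by
  have hsm : ∀ᶠ T : ℝ in atTop, (1060000:ℝ) / ρ ≤ T := eventually_ge_atTop _
  filter_upwards [hsm, eventually_ge_atTop 10, Real.tendsto_log_atTop.eventually_ge_atTop (200 * lam),
    Real.tendsto_log_atTop.eventually_ge_atTop (100 * lam / ρ)] with T h1 h2 h3 h4 p hp hp2 U H hU hUH hH
  have hT0 : 0 < T := by linarith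
  have hT1 : 1 ≤ T := by linarith
  have hL0 : 0 < Real.log T := by linarith
  set W := T ^ ((1:ℝ) / 4) with hW
  have hW1 : 1 ≤ W := Real.one_le_rpow hT1 (by norm_num)
  set Δ := lam / Real.log T with hΔ
  have hΔ0 : 0 < Δ := by positivity
  have hΔ1 : Δ ≤ 1 / 200 := by rw [hΔ, div_le_iff₀ hL0]; linarith
  have hΔ2 : 100 * Δ ≤ ρ := by
    rw [hΔ, ← mul_div_assoc, div_le_iff₀ hL0]
    rw [div_le_iff₀ hρ] at h4
    linarith
  have hΔ3 : 1 / Δ ≤ T := by
    rw [hΔ, one_div_div, div_le_iff₀ (by linarith)]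
    have := Real.log_le_sub_one_of_pos hT0
    nlinarith
  have hab : U + W ≤ U + H - W := by linarith
  have hm := hp_pow (p := p) (Δ := Δ) (a := U + W) (b := U + H - W) (U := W) hp hp2 hΔ0 hΔ1 hab hW1
  rw [show U + W - W = U by ring, show U + H - W + W = U + H by ring] at hm
  have hI0 : 0 ≤ ∫ t in (U + W)..(U + H - W), zn (1 / 2 + Δ) t ^ p :=
    intervalIntegral.integral_nonneg hab fun t _ => Real.rpow_nonneg (zn_nonneg _ _) _
  have h5 : (1 - ρ) * ∫ t in (U + W)..(U + H - W), zn (1 / 2 + Δ) t ^ p ≤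
      (1 - 100 * Δ) * ∫ t in (U + W)..(U + H - W), zn (1 / 2 + Δ) t ^ p :=
    mul_le_mul_of_nonneg_right (by linarith) hI0
  refine h5.trans (hm.trans (add_le_add le_rfl ?_))
  have hU0 : 0 ≤ U := by linarith
  have hW28 : W ^ 28 = T ^ 7 := by
    rw [hW, ← Real.rpow_natCast, ← Real.rpow_mul hT0.le]
    norm_num
  rw [hW28]
  have hb0 : 0 ≤ U + H - W - (U + W) := by linarith
  have hb1 : U + H - W - (U + W) ≤ H := by linarith
  have hb2 : U + H - W - (U + W) ≤ 4 * T := by linarith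
  have ha1 : U + W ≤ 4 * T := by linarith
  have ha2 : 1 + (U + W) ^ 2 ≤ 17 * T ^ 2 := by nlinarith
  have hb3 : 1 + (U + H - W - (U + W)) ^ 2 ≤ 17 * T ^ 2 := by nlinarith
  have hpi : Real.pi ≤ 3.15 := Real.pi_lt_d2.le
  have hH0 : 0 ≤ H := by linarith
  calc (U + H - W - (U + W)) * (2 * (2 * 289 * (1 + (U + W) ^ 2)) * (1 + (U + H - W - (U + W)) ^ 2)) *
        (Real.pi * (1 / Δ) * (T ^ 7)⁻¹) ≤
        H * (2 * (2 * 289 * (17 * T ^ 2)) * (17 * T ^ 2)) * (3.15 * T * (T ^ 7)⁻¹) := by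
        gcongr
    _ = H * (1052364.6 / T ^ 2) := by field_simp; norm_num; ring
    _ ≤ H * ρ := by
        refine mul_le_mul_of_nonneg_left ?_ hH0
        rw [div_le_iff₀ hρ] at h1
        rw [div_le_iff₀ (by positivity)]
        nlinarith
    _ = ρ * H := mul_comm _ _

/-- lower bound of the right order on the line over short windows -/
theorem line_low {α : ℝ} (hα : 0 < α) (hα1 : α ≤ 1) {κ : ℝ} (hκ : 0 < κ) (hκ1 : κ ≤ 1 / 16) :
    ∃ c : ℝ, 0 < c ∧ ∀ᶠ T : ℝ in atTop, ∀ U H : ℝ, T / 4 ≤ U → U + H ≤ 4 * T → T ^ (1 / 2 + 3 * κ) ≤ H →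
      c * (H * Real.log T ^ (α ^ 2)) ≤ ∫ t in U..(U + H), zn (1 / 2) t ^ (2 * α) := by
  obtain ⟨lam, hl1, hw⟩ := win_mainS hα (by linarith) (κ := κ / 2) (by positivity) (by linarith) (ε := 1 / 128) (by norm_num)
    (by norm_num)
  obtain ⟨c2, hc2, hDD⟩ := DD_low hα
  set c3 : ℝ := c2 * lam ^ (-(α ^ 2)) with hc3
  have hc30 : 0 < c3 := by positivity
  refine ⟨c3 / 16, by positivity, ?_⟩
  filter_upwards [hw, line_red (ρ := min (1 / 2) (c3 / 32)) (lt_min (by norm_num) (by positivity)) hl1,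
    rpow_ev (p := 1 / 2 + 3 * (κ / 2)) (q := 1 / 2 + 3 * κ) (by linarith) 2, rpow_ev (p := 1 / 4) (q := 1 / 2 + 3 * κ) (by linarith) 4,
    Real.tendsto_log_atTop.eventually_ge_atTop (16 * lam), eventually_ge_atTop 1] with T h1 h2 h3 h4 h5 h6 U H hU hUH hH
  have hT0 : 0 < T := by linarith
  have hL0 : 0 < Real.log T := by linarith
  have hL1 : 1 ≤ Real.log T := by linarith
  set W := T ^ ((1:ℝ) / 4) with hW
  have hW0 : 0 < W := by positivity
  have hWH : 4 * W ≤ H := h4.trans hH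
  set Δ := lam / Real.log T with hΔ
  have hΔ0 : 0 < Δ := by positivity
  have hΔ1 : Δ ≤ 1 / 16 := by rw [hΔ, div_le_iff₀ hL0]; linarith
  have g1 := (h1 Δ le_rfl hΔ1 (U + W) (H - 2 * W) (by linarith) (by linarith) (by linarith)).1
  rw [show U + W + (H - 2 * W) = U + H - W by ring] at g1
  have g2 := h2 (2 * α) (by linarith) (by linarith) U H hU hUH (by linarith)
  have g3 := hDD Δ hΔ0 (by linarith)
  set I := ∫ t in (U + W)..(U + H - W), zn (1 / 2 + Δ) t ^ (2 * α)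
  set P := Real.log T ^ (α ^ 2) with hP
  have hP1 : 1 ≤ P := Real.one_le_rpow hL1 (sq_nonneg _)
  have g4 : c3 * P ≤ DD α Δ := by
    refine le_trans (le_of_eq ?_) g3
    rw [hc3, hΔ, Real.div_rpow (by linarith) hL0.le, Real.rpow_neg hL0.le, div_inv_eq_mul, mul_assoc]
  have hI0 : 0 ≤ I := intervalIntegral.integral_nonneg (by linarith) fun t _ => Real.rpow_nonneg (zn_nonneg _ _) _
  have g5 : 1 / 2 * (H / 2 * (c3 * P)) ≤ I := by
    refine le_trans ?_ g1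
    have e1 : (1 - 64 * (1 / 128) : ℝ) = 1 / 2 := by norm_num
    rw [e1]
    refine mul_le_mul_of_nonneg_left ?_ (by norm_num)
    exact mul_le_mul (by linarith) g4 (by positivity) (by linarith)
  have hH0 : 0 < H := by linarith
  set ρ := min (1 / 2) (c3 / 32) with hρ
  have hρ1 : ρ ≤ 1 / 2 := min_le_left _ _
  have hρ2 : ρ ≤ c3 / 32 := min_le_right _ _
  have g6 : 1 / 2 * I ≤ (1 - ρ) * I := mul_le_mul_of_nonneg_right (by linarith) hI0
  have g7 : ρ * H ≤ c3 / 32 * (H * P) := by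
    have a1 : ρ * H ≤ c3 / 32 * H := mul_le_mul_of_nonneg_right hρ2 hH0.le
    have a2 : c3 / 32 * H ≤ c3 / 32 * (H * P) :=
      mul_le_mul_of_nonneg_left (le_mul_of_one_le_right hH0.le hP1) (by positivity)
    linarith
  have g8 : 0 < c3 * (H * P) := by positivity
  have e2 : 1 / 2 * (H / 2 * (c3 * P)) = 1 / 4 * (c3 * (H * P)) := by ring
  have e3 : c3 / 16 * (H * P) = 1 / 16 * (c3 * (H * P)) := by ring
  have e4 : c3 / 32 * (H * P) = 1 / 32 * (c3 * (H * P)) := by ring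
  rw [e2] at g5
  rw [e4] at g7
  rw [e3]
  linarith

/-- sharp lower bound on the line over short windows for small exponents -/
theorem line_low0 {κ : ℝ} (hκ : 0 < κ) (hκ1 : κ ≤ 1 / 16) {ρ : ℝ} (hρ : 0 < ρ) (hρ1 : ρ ≤ 1) :
    ∃ α₀ : ℝ, 0 < α₀ ∧ ∀ᶠ T : ℝ in atTop, ∀ α : ℝ, 0 < α → α ≤ α₀ →
      ∀ U H : ℝ, T / 4 ≤ U → U + H ≤ 4 * T → T ^ (1 / 2 + 3 * κ) ≤ H →
      (1 - ρ) * (H * Real.log T ^ (α ^ 2)) ≤ ∫ t in U..(U + H), zn (1 / 2) t ^ (2 * α) := by
  obtain ⟨lam, α₁, hl1, hα₁, hw⟩ := win_zeroS (κ := κ / 2) (by positivity) (by linarith) (ε := ρ / 650) (by positivity)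
    (by linarith)
  refine ⟨min α₁ 1, lt_min hα₁ one_pos, ?_⟩
  filter_upwards [hw, line_red (ρ := ρ / 10) (by positivity) hl1,
    rpow_ev (p := 1 / 2 + 3 * (κ / 2)) (q := 1 / 2 + 3 * κ) (by linarith) 2,
    rpow_ev (p := 1 / 4) (q := 1 / 2 + 3 * κ) (by linarith) (20 / ρ),
    Real.tendsto_log_atTop.eventually_ge_atTop 1, eventually_ge_atTop 1] with T h1 h2 h3 h4 h5 h6 α hα hαα U H hU hUH hH
  have hT0 : 0 < T := by linarith
  have hL0 : 0 < Real.log T := by linarith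
  set W := T ^ ((1:ℝ) / 4) with hW
  have hW0 : 0 < W := by positivity
  have hWH : 20 / ρ * W ≤ H := h4.trans hH
  have hWH1 : 20 * W ≤ ρ * H := by
    have := mul_le_mul_of_nonneg_left hWH hρ.le
    have e1 : ρ * (20 / ρ * W) = 20 * W := by field_simp
    linarith
  have hH0 : 0 < H := lt_of_lt_of_le (by positivity) hWH
  have hWH2 : 20 * W ≤ H := by nlinarith
  set Δ := lam / Real.log T with hΔ
  have hΔ0 : 0 < Δ := by positivity
  have g1 := h1 α hα (hαα.trans (min_le_left _ _)) (U + W) (H - 2 * W) (by linarith) (by linarith) (by linarith)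
  rw [show U + W + (H - 2 * W) = U + H - W by ring] at g1
  have g2 := h2 (2 * α) (by linarith) (by have := hαα.trans (min_le_right _ _); linarith) U H hU hUH (by linarith)
  set I := ∫ t in (U + W)..(U + H - W), zn (1 / 2 + Δ) t ^ (2 * α)
  set P := Real.log T ^ (α ^ 2) with hP
  have hP1 : 1 ≤ P := Real.one_le_rpow h5 (sq_nonneg _)
  have g5 : (1 - ρ / 10) * ((1 - ρ / 10) * (H * P)) ≤ I := by
    refine le_trans ?_ g1
    have e1 : (1 - 65 * (ρ / 650) : ℝ) = 1 - ρ / 10 := by ring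
    rw [e1]
    refine mul_le_mul_of_nonneg_left ?_ (by linarith)
    rw [← mul_assoc]
    exact mul_le_mul_of_nonneg_right (by linarith) (by linarith)
  have g6 : (1 - ρ / 10) * ((1 - ρ / 10) * ((1 - ρ / 10) * (H * P))) ≤ (1 - ρ / 10) * I :=
    mul_le_mul_of_nonneg_left g5 (by linarith)
  have hHP : H ≤ H * P := le_mul_of_one_le_right hH0.le hP1
  have g7 : ρ / 10 * H ≤ ρ / 10 * (H * P) := mul_le_mul_of_nonneg_left hHP (by positivity)
  have g8 : (1 - ρ) * (H * P) + ρ / 10 * (H * P) ≤ (1 - ρ / 10) * ((1 - ρ / 10) * ((1 - ρ / 10) * (H * P))) := by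
    have e1 : (1 - ρ / 10) * ((1 - ρ / 10) * ((1 - ρ / 10) * (H * P))) - ((1 - ρ) * (H * P) + ρ / 10 * (H * P)) =
      (6 / 10 * ρ + 3 / 100 * ρ ^ 2 - ρ ^ 3 / 1000) * (H * P) := by ring
    have e2 : 0 ≤ 6 / 10 * ρ + 3 / 100 * ρ ^ 2 - ρ ^ 3 / 1000 := by nlinarith [sq_nonneg ρ, mul_pos hρ hρ]
    have e3 : 0 ≤ H * P := by positivity
    have := mul_nonneg e2 e3
    linarith
  linarith

end Pool.Agent.T6.H57.NS
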