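import Pool.Agent.T6.H57.NS.LowL

set_option autoImplicit false

/-! On the line: intervals of the positive half line and shifts. -/

namespace Pool.Agent.T6.H57.NS

open Finset Filter MeasureTheory
open Pool.Agent.W184.NZ
open Pool.Agent.W184 (zn zn_nonneg zn_cont zn_le' zn_neg)
open Pool.Agent.Y755

lemma zl_cont {α : ℝ} (hα : 0 < α) : Continuous fun t => zn (1 / 2) t ^ (2 * α) :=
  znp_cont (by norm_num) (by linarith)

lemma zl_nonneg (α t : ℝ) : 0 ≤ zn (1 / 2) t ^ (2 * α) := Real.rpow_nonneg (zn_nonneg _ _) _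

lemma zl_mono {α : ℝ} (hα : 0 < α) {a b a' b' : ℝ} (h1 : a' ≤ a) (h2 : a ≤ b) (h3 : b ≤ b') :
    ∫ t in a..b, zn (1 / 2) t ^ (2 * α) ≤ ∫ t in a'..b', zn (1 / 2) t ^ (2 * α) :=
  intervalIntegral.integral_mono_interval h1 h2 h3 (Filter.Eventually.of_forall fun t => zl_nonneg α t)
    ((zl_cont hα).intervalIntegrable _ _)

/-- the initial segment -/
theorem F0_up : ∃ C : ℝ, 0 < C ∧ ∀ e : ℝ, 0 < e → e ≤ 1 → ∀ᶠ T : ℝ in atTop, ∀ α : ℝ, 0 < α → α ≤ 1 →
    ∫ t in (0:ℝ)..(e * T), zn (1 / 2) t ^ (2 * α) ≤ C * (e * T) * Real.log T ^ (α ^ 2) := by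
  obtain ⟨C1, α₀, hC1, -, hw⟩ := line_up (κ := 1 / 16) (by norm_num) le_rfl (ρ := 1) one_pos le_rfl
  rw [eventually_atTop] at hw
  obtain ⟨X0, hX0⟩ := hw
  set X1 := max X0 3 with hX1
  have hX13 : 3 ≤ X1 := le_max_right _ _
  have hX10 : X0 ≤ X1 := le_max_left _ _
  set M0 := ∫ t in (0:ℝ)..(2 * X1), (1 + zn (1 / 2) t ^ 2) with hM0
  have hc : Continuous fun t => 1 + zn (1 / 2) t ^ 2 := continuous_const.add ((zn_cont (by norm_num)).pow 2)
  have hM00 : 0 ≤ M0 := intervalIntegral.integral_nonneg (by linarith) fun t _ => by positivity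
  refine ⟨3 * C1, by positivity, fun e he he1 => ?_⟩
  have ht : Tendsto (fun T : ℝ => C1 * e * T) atTop atTop := tendsto_id.const_mul_atTop (by positivity)
  filter_upwards [ht.eventually_ge_atTop M0, Real.tendsto_log_atTop.eventually_ge_atTop 1, eventually_ge_atTop 1]
    with T h1 h2 h3 α hα hα1
  have hT0 : 0 < T := by linarith
  set P := Real.log T ^ (α ^ 2) with hP
  have hP1 : 1 ≤ P := Real.one_le_rpow h2 (sq_nonneg _)
  have key : ∀ n : ℕ, ∀ Y : ℝ, 0 ≤ Y → Y ≤ T → Y ≤ 2 ^ n * (2 * X1) →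
      ∫ t in (0:ℝ)..Y, zn (1 / 2) t ^ (2 * α) ≤ M0 + 2 * C1 * Y * P := by
    have hsm : ∀ Y : ℝ, 0 ≤ Y → Y ≤ 2 * X1 → ∫ t in (0:ℝ)..Y, zn (1 / 2) t ^ (2 * α) ≤ M0 := by
      intro Y hY hY1
      refine (zl_mono hα le_rfl hY hY1).trans ?_
      refine intervalIntegral.integral_mono_on (by linarith) ((zl_cont hα).intervalIntegrable _ _)
        (hc.intervalIntegrable _ _) fun t _ => ?_
      have h0 := zn_nonneg (1 / 2) t
      rcases le_or_gt (zn (1 / 2) t) 1 with h | h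
      · have := Real.rpow_le_one h0 h (show 0 ≤ 2 * α by linarith)
        nlinarith [sq_nonneg (zn (1 / 2) t)]
      · have := Real.rpow_le_rpow_of_exponent_le h.le (show 2 * α ≤ 2 by linarith)
        rw [Real.rpow_two] at this
        linarith
    intro n
    induction n with
    | zero =>
      intro Y hY0 _ hY1
      rw [pow_zero, one_mul] at hY1
      have := hsm Y hY0 hY1
      have : 0 ≤ 2 * C1 * Y * P := by positivity
      linarith
    | succ n ih =>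
      intro Y hY0 hYT hY1
      rcases le_or_gt Y (2 * X1) with h5 | h5
      · have := hsm Y hY0 h5
        have : 0 ≤ 2 * C1 * Y * P := by positivity
        linarith
      · have g1 := ih (Y / 2) (by linarith) (by linarith) (by rw [pow_succ] at hY1; linarith)
        have hY2 : 1 ≤ Y / 2 := by linarith
        have g2 := (hX0 (Y / 2) (by linarith) α hα hα1 (Y / 2) (Y / 2) (by linarith) (by linarith) (by
          have := Real.rpow_le_rpow_of_exponent_le hY2 (show (1:ℝ) / 2 + 3 * (1 / 16) ≤ 1 by norm_num)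
          rwa [Real.rpow_one] at this)).1
        rw [show Y / 2 + Y / 2 = Y by ring] at g2
        have g3 : Real.log (Y / 2) ^ (α ^ 2) ≤ P := by
          refine Real.rpow_le_rpow (Real.log_nonneg hY2) (Real.log_le_log (by linarith) (by linarith)) (sq_nonneg _)
        have g4 : C1 * (Y / 2 * Real.log (Y / 2) ^ (α ^ 2)) ≤ C1 * (Y / 2 * P) := by gcongr
        have g5 := intervalIntegral.integral_add_adjacent_intervals ((zl_cont hα).intervalIntegrable 0 (Y / 2))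
          ((zl_cont hα).intervalIntegrable (Y / 2) Y) (μ := volume)
        have g6 : 0 ≤ C1 * (Y * P) := by positivity
        rw [← g5]
        linarith
  obtain ⟨n, hn⟩ := exists_nat_gt (e * T)
  have h5 : (n:ℝ) ≤ 2 ^ n := by
    have : n < 2 ^ n := Nat.lt_two_pow_self
    exact_mod_cast this.le
  have h6 := key n (e * T) (by positivity) (by nlinarith) (by
    have : (2:ℝ) ^ n * 1 ≤ 2 ^ n * (2 * X1) := mul_le_mul_of_nonneg_left (by linarith) (by positivity)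
    linarith)
  refine h6.trans ?_
  have h7 : M0 ≤ C1 * (e * T) * P := by
    have : C1 * (e * T) * 1 ≤ C1 * (e * T) * P := mul_le_mul_of_nonneg_left hP1 (by positivity)
    linarith
  linarith

/-- powers of the logarithms -/
lemma logp {A : ℝ} (hA2 : A < 2) {ρ : ℝ} (hρ : 0 < ρ) : ∃ α₁ : ℝ, 0 < α₁ ∧ ∀ T X α : ℝ, 1 ≤ Real.log T →
    Real.log T ≤ 2 * Real.log X → Real.log X ≤ (2 + A) * Real.log T → 0 < α → α ≤ 1 →
    (1 / 2 * Real.log T ^ (α ^ 2) ≤ Real.log X ^ (α ^ 2) ∧ Real.log X ^ (α ^ 2) ≤ 4 * Real.log T ^ (α ^ 2)) ∧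
    (α ≤ α₁ → (1 - ρ) * Real.log T ^ (α ^ 2) ≤ Real.log X ^ (α ^ 2) ∧
      Real.log X ^ (α ^ 2) ≤ (1 + ρ) * Real.log T ^ (α ^ 2)) := by
  have h0 : Tendsto (fun a : ℝ => (4:ℝ) ^ (a ^ 2)) (nhds 0) (nhds ((4:ℝ) ^ ((0:ℝ) ^ 2))) :=
    (Continuous.rpow continuous_const (continuous_pow 2) fun _ => Or.inl (by norm_num)).tendsto 0
  have h0' : Tendsto (fun a : ℝ => (1 / 2:ℝ) ^ (a ^ 2)) (nhds 0) (nhds ((1 / 2:ℝ) ^ ((0:ℝ) ^ 2))) :=
    (Continuous.rpow continuous_const (continuous_pow 2) fun _ => Or.inl (by norm_num)).tendsto 0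
  norm_num at h0 h0'
  have h1 := (h0.eventually (gt_mem_nhds (show (1:ℝ) < 1 + ρ by linarith))).and
    (h0'.eventually (lt_mem_nhds (show (1:ℝ) - ρ < 1 by linarith)))
  rw [Metric.eventually_nhds_iff] at h1
  obtain ⟨d, hd, hd1⟩ := h1
  refine ⟨d / 2, by positivity, fun T X α hT hX1 hX2 hα hα1 => ?_⟩
  have hL0 : 0 < Real.log T := by linarith
  have hX0 : 0 ≤ Real.log X := by linarith
  have ha2 : 0 ≤ α ^ 2 := sq_nonneg _
  have ha21 : α ^ 2 ≤ 1 := by nlinarith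
  have hP : 0 < Real.log T ^ (α ^ 2) := by positivity
  have g1 : (1 / 2) ^ (α ^ 2) * Real.log T ^ (α ^ 2) ≤ Real.log X ^ (α ^ 2) := by
    rw [← Real.mul_rpow (by norm_num) hL0.le]
    exact Real.rpow_le_rpow (by positivity) (by linarith) ha2
  have g2 : Real.log X ^ (α ^ 2) ≤ 4 ^ (α ^ 2) * Real.log T ^ (α ^ 2) := by
    rw [← Real.mul_rpow (by norm_num) hL0.le]
    refine Real.rpow_le_rpow hX0 (hX2.trans ?_) ha2
    exact mul_le_mul_of_nonneg_right (by linarith) hL0.le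
  constructor
  · constructor
    · refine le_trans (mul_le_mul_of_nonneg_right ?_ hP.le) g1
      have := Real.rpow_le_rpow_of_exponent_ge (show (0:ℝ) < 1 / 2 by norm_num) (by norm_num) ha21
      rwa [Real.rpow_one] at this
    · refine le_trans g2 (mul_le_mul_of_nonneg_right ?_ hP.le)
      have := Real.rpow_le_rpow_of_exponent_le (show (1:ℝ) ≤ 4 by norm_num) ha21
      rwa [Real.rpow_one] at this
  · intro hαd
    have h2 := hd1 (y := α) (by rw [Real.dist_eq, sub_zero, abs_of_pos hα]; linarith)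
    constructor
    · refine le_trans (mul_le_mul_of_nonneg_right ?_ hP.le) g1
      have := h2.2.le
      norm_num at this ⊢
      linarith
    · exact le_trans g2 (mul_le_mul_of_nonneg_right h2.1.le hP.le)

/-- windows on the line with parameters -/
theorem win_evL {A : ℝ} (hA : 1 ≤ A) (hA2 : A < 2) {ρ : ℝ} (hρ : 0 < ρ) (hρ1 : ρ ≤ 1) :
    ∃ C α₀ : ℝ, 0 < C ∧ 0 < α₀ ∧ ∀ e : ℝ, 0 < e → ∀ᶠ T : ℝ in atTop, ∀ α : ℝ, 0 < α → α ≤ 1 →
      ∀ U H : ℝ, e * T ≤ U → e * T ≤ H → U + H ≤ 8 * U → U + H ≤ 3 * T ^ A →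
      ∫ t in U..(U + H), zn (1 / 2) t ^ (2 * α) ≤ (C * Real.log T ^ (α ^ 2)) * H ∧
      (α ≤ α₀ → ((1 - ρ) * Real.log T ^ (α ^ 2)) * H ≤ ∫ t in U..(U + H), zn (1 / 2) t ^ (2 * α) ∧
        ∫ t in U..(U + H), zn (1 / 2) t ^ (2 * α) ≤ ((1 + ρ) * Real.log T ^ (α ^ 2)) * H) := by
  obtain ⟨κ, hκ, hκ1, hq⟩ := kap_ex hA hA2
  obtain ⟨C1, α₁, hC1, hα₁, hw⟩ := line_up hκ hκ1 (ρ := ρ / 3) (by positivity) (by linarith)
  obtain ⟨α₂, hα₂, hw2⟩ := line_low0 hκ hκ1 (ρ := ρ / 3) (by positivity) (by linarith)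
  obtain ⟨α₃, hα₃, hlp⟩ := logp hA2 (ρ := ρ / 3) (by positivity)
  refine ⟨4 * C1, min α₁ (min α₂ α₃), by positivity, lt_min hα₁ (lt_min hα₂ hα₃), fun e he => ?_⟩
  filter_upwards [len_ev hκ hκ1 hq he (hw.and hw2), Real.tendsto_log_atTop.eventually_ge_atTop 1]
    with T h hL1 α hα hα1 U H hU hH hUH hB
  obtain ⟨hT4, h⟩ := h
  have hT0 : 0 < T := by linarith
  have hH0 : 0 < H := lt_of_lt_of_le (by positivity) hH
  obtain ⟨⟨h1, h1'⟩, h2, h3, h4, h5⟩ := h U hU (by linarith)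
  obtain ⟨⟨p1, p2⟩, p3⟩ := hlp T (2 * U) α hL1 h3 h5 hα hα1
  obtain ⟨g1, g2⟩ := h1 α hα hα1 U H (by linarith) (by linarith) (h2.trans hH)
  have hU0 : 0 < U := by linarith
  set P := Real.log T ^ (α ^ 2) with hP
  set Q := Real.log (2 * U) ^ (α ^ 2) with hQ
  have hP0 : 0 < P := by positivity
  refine ⟨g1.trans ?_, fun hαα => ?_⟩
  · calc C1 * (H * Q) ≤ C1 * (H * (4 * P)) := by gcongr
      _ = _ := by ring
  · obtain ⟨q1, q2⟩ := p3 (hαα.trans ((min_le_right _ _).trans (min_le_right _ _)))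
    have g3 := g2 (hαα.trans (min_le_left _ _))
    have g4 := h1' α hα (hαα.trans ((min_le_right _ _).trans (min_le_left _ _))) U H (by linarith) (by linarith) (h2.trans hH)
    constructor
    · refine le_trans ?_ g4
      calc ((1 - ρ) * P) * H ≤ ((1 - ρ / 3) * ((1 - ρ / 3) * P)) * H := by
            refine mul_le_mul_of_nonneg_right ?_ hH0.le
            rw [← mul_assoc]
            exact mul_le_mul_of_nonneg_right (by nlinarith) hP0.le
        _ ≤ ((1 - ρ / 3) * Q) * H :=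
            mul_le_mul_of_nonneg_right (mul_le_mul_of_nonneg_left q1 (by linarith)) hH0.le
        _ = _ := by ring
    · refine g3.trans ?_
      calc (1 + ρ / 3) * (H * Q) = ((1 + ρ / 3) * Q) * H := by ring
        _ ≤ ((1 + ρ / 3) * ((1 + ρ / 3) * P)) * H :=
            mul_le_mul_of_nonneg_right (mul_le_mul_of_nonneg_left q2 (by linarith)) hH0.le
        _ ≤ ((1 + ρ) * P) * H := by
            refine mul_le_mul_of_nonneg_right ?_ hH0.le
            rw [← mul_assoc]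
            exact mul_le_mul_of_nonneg_right (by nlinarith) hP0.le

/-- windows on the line with parameters, lower bound -/
theorem win_evLow {A : ℝ} (hA : 1 ≤ A) (hA2 : A < 2) {α : ℝ} (hα : 0 < α) (hα1 : α ≤ 1) :
    ∃ c : ℝ, 0 < c ∧ ∀ e : ℝ, 0 < e → ∀ᶠ T : ℝ in atTop,
      ∀ U H : ℝ, e * T ≤ U → e * T ≤ H → U + H ≤ 8 * U → U + H ≤ 3 * T ^ A →
      (c * Real.log T ^ (α ^ 2)) * H ≤ ∫ t in U..(U + H), zn (1 / 2) t ^ (2 * α) := by
  obtain ⟨κ, hκ, hκ1, hq⟩ := kap_ex hA hA2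
  obtain ⟨c1, hc1, hw⟩ := line_low hα hα1 hκ hκ1
  obtain ⟨α₃, hα₃, hlp⟩ := logp hA2 (ρ := 1) one_pos
  refine ⟨c1 / 2, by positivity, fun e he => ?_⟩
  filter_upwards [len_ev hκ hκ1 hq he hw, Real.tendsto_log_atTop.eventually_ge_atTop 1]
    with T h hL1 U H hU hH hUH hB
  obtain ⟨hT4, h⟩ := h
  have hT0 : 0 < T := by linarith
  have hH0 : 0 < H := lt_of_lt_of_le (by positivity) hH
  obtain ⟨h1, h2, h3, h4, h5⟩ := h U hU (by linarith)
  obtain ⟨⟨p1, p2⟩, p3⟩ := hlp T (2 * U) α hL1 h3 h5 hα hα1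
  have g1 := h1 U H (by linarith) (by linarith) (h2.trans hH)
  refine le_trans ?_ g1
  calc (c1 / 2 * Real.log T ^ (α ^ 2)) * H = c1 * (H * (1 / 2 * Real.log T ^ (α ^ 2))) := by ring
    _ ≤ _ := by gcongr

/-- upper bound over intervals -/
theorem ivL_up {A : ℝ} (hA : 1 ≤ A) (hA2 : A < 2) {ρ : ℝ} (hρ : 0 < ρ) (hρ1 : ρ ≤ 1) :
    ∃ C α₀ : ℝ, 0 < C ∧ 0 < α₀ ∧ ∀ᶠ T : ℝ in atTop, ∀ α : ℝ, 0 < α → α ≤ 1 →
      ∀ a b : ℝ, 0 ≤ a → a ≤ b → b ≤ 2 * T ^ A →
      ∫ t in a..b, zn (1 / 2) t ^ (2 * α) ≤ C * Real.log T ^ (α ^ 2) * (b - a + T) ∧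
      (α ≤ α₀ → ∫ t in a..b, zn (1 / 2) t ^ (2 * α) ≤ (1 + ρ) * Real.log T ^ (α ^ 2) * (b - a + ρ * T)) := by
  obtain ⟨C1, α₀, hC1, hα₀, hw⟩ := win_evL hA hA2 hρ hρ1
  obtain ⟨C2, hC2, hF⟩ := F0_up
  set e := ρ / (3 + C2) with he
  have he0 : 0 < e := by positivity
  have he1 : e * (3 + C2) = ρ := by rw [he]; field_simp
  have he2 : 3 * e ≤ 1 := by nlinarith
  refine ⟨C1 + C2 + 1, α₀, by positivity, hα₀, ?_⟩
  filter_upwards [hw e he0, hF e he0 (by linarith), Real.tendsto_log_atTop.eventually_ge_atTop 1, eventually_ge_atTop 1]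
    with T h hF hL1 hT1 α hα hα1 a b ha hab hb
  have hT0 : 0 < T := by linarith
  have hF' := hF α hα hα1
  have h' := h α hα hα1
  have hTA : T ≤ T ^ A := by
    have := Real.rpow_le_rpow_of_exponent_le hT1 hA
    rwa [Real.rpow_one] at this
  set a0 := e * T with ha0
  have ha0p : 0 < a0 := by positivity
  have ha0T : 3 * a0 ≤ T := by rw [ha0]; nlinarith
  set P := Real.log T ^ (α ^ 2) with hP
  have hP0 : 0 < P := by positivity
  -- general statement
  have gen : ∀ k : ℝ, 0 ≤ k → (∀ U H : ℝ, a0 ≤ U → a0 ≤ H → U + H ≤ 8 * U → U + H ≤ 3 * T ^ A →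
      ∫ t in U..(U + H), zn (1 / 2) t ^ (2 * α) ≤ k * H) →
      ∫ t in a..b, zn (1 / 2) t ^ (2 * α) ≤ k * (b - a + 2 * a0) + C2 * a0 * P := by
    intro k hk hwk
    have hch := fun a b h1 h2 h3 => chain_up (zl_cont hα) (k := k) (a0 := a0) (B := 3 * T ^ A) ha0p hwk a b h1 h2 h3
    have hCa : 0 ≤ C2 * a0 * P := by positivity
    rcases le_or_gt a0 a with h1 | h1
    · rcases le_or_gt (a + a0) b with h2 | h2
      · have h3 := hch a b h1 h2 (by linarith [Real.rpow_nonneg hT0.le A])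
        have h4 : k * (b - a) ≤ k * (b - a + 2 * a0) := mul_le_mul_of_nonneg_left (by linarith) hk
        linarith
      · have h3 := (zl_mono hα le_rfl hab h2.le).trans (hch a (a + a0) h1 le_rfl (by linarith))
        have h4 : k * (a + a0 - a) ≤ k * (b - a + 2 * a0) := mul_le_mul_of_nonneg_left (by linarith) hk
        linarith
    · set b' := max b (2 * a0) with hb'
      have hb1 : b ≤ b' := le_max_left _ _
      have hb2 : 2 * a0 ≤ b' := le_max_right _ _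
      have hb3 : b' ≤ (b - a) + 2 * a0 := by
        rw [hb']
        refine max_le (by linarith) (by linarith)
      have h5 := hch a0 b' le_rfl (by linarith) (by
        rw [hb']
        refine max_le (by linarith [Real.rpow_nonneg hT0.le A]) (by linarith))
      have h6 := intervalIntegral.integral_add_adjacent_intervals ((zl_cont hα).intervalIntegrable 0 a0)
        ((zl_cont hα).intervalIntegrable a0 b') (μ := volume)
      refine (zl_mono hα ha hab hb1).trans ?_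
      rw [← h6]
      have h7 : k * (b' - a0) ≤ k * (b - a + 2 * a0) := mul_le_mul_of_nonneg_left (by linarith) hk
      linarith
  have hba : 0 ≤ b - a := by linarith
  constructor
  · have g1 := gen (C1 * P) (by positivity) fun U H h1 h2 h3 h4 => (h' U H h1 h2 h3 h4).1
    have g2 : C1 * P * (b - a + 2 * a0) ≤ C1 * P * (b - a + T) :=
      mul_le_mul_of_nonneg_left (by linarith) (by positivity)
    have g3 : C2 * a0 * P ≤ C2 * P * (b - a + T) := by
      have : C2 * a0 * P = C2 * P * a0 := by ring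
      rw [this]
      exact mul_le_mul_of_nonneg_left (by linarith) (by positivity)
    have g4 : 0 ≤ P * (b - a + T) := by positivity
    have g5 : (C1 + C2 + 1) * P * (b - a + T) = C1 * P * (b - a + T) + C2 * P * (b - a + T) + P * (b - a + T) := by ring
    rw [g5]
    linarith
  · intro hαα
    have g1 := gen ((1 + ρ) * P) (by positivity) fun U H h1 h2 h3 h4 => ((h' U H h1 h2 h3 h4).2 hαα).2
    refine g1.trans ?_
    have g2 : C2 * a0 * P ≤ (1 + ρ) * P * (C2 * a0) := by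
      have : C2 * a0 * P = 1 * P * (C2 * a0) := by ring
      rw [this]
      exact mul_le_mul_of_nonneg_right (mul_le_mul_of_nonneg_right (by linarith) hP0.le) (by positivity)
    have g3 : (1 + ρ) * P * (b - a + 2 * a0) + (1 + ρ) * P * (C2 * a0) ≤ (1 + ρ) * P * (b - a + ρ * T) := by
      rw [← mul_add]
      refine mul_le_mul_of_nonneg_left ?_ (by positivity)
      have : ρ * T = a0 * (3 + C2) := by rw [← he1, ha0]; ring
      rw [this]
      nlinarith
    linarith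

/-- lower bound over intervals -/
lemma ivL_low_gen {A T a0 k α : ℝ} (hα : 0 < α) (ha0 : 0 < a0) (hk : 0 ≤ k)
    (hW : ∀ U H : ℝ, a0 ≤ U → a0 ≤ H → U + H ≤ 8 * U → U + H ≤ 3 * T ^ A →
      k * H ≤ ∫ t in U..(U + H), zn (1 / 2) t ^ (2 * α)) {a b : ℝ} (ha : 0 ≤ a) (hab : a ≤ b) (hb : b ≤ 3 * T ^ A) :
    k * (b - a - 2 * a0) ≤ ∫ t in a..b, zn (1 / 2) t ^ (2 * α) := by
  rcases le_or_gt (b - a - 2 * a0) 0 with h1 | h1
  · have h2 : 0 ≤ ∫ t in a..b, zn (1 / 2) t ^ (2 * α) :=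
      intervalIntegral.integral_nonneg hab fun t _ => zl_nonneg α t
    have h3 := mul_nonpos_of_nonneg_of_nonpos hk h1
    linarith
  · have h2 := chain (zl_cont hα) (k := k) (a0 := a0) (B := 3 * T ^ A) ha0 hW (a + a0) b (by linarith) (by linarith) hb
    have h3 := zl_mono hα (show a ≤ a + a0 by linarith) (show a + a0 ≤ b by linarith) le_rfl
    have h4 : k * (b - a - 2 * a0) ≤ k * (b - (a + a0)) := mul_le_mul_of_nonneg_left (by linarith) hk
    linarith

/-- sharp asymptotics on the line for small exponents, and the upper bound, uniformly in the shift -/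
theorem shL {A : ℝ} (hA : 1 ≤ A) (hA2 : A < 2) {ρ : ℝ} (hρ : 0 < ρ) :
    ∃ C α₀ : ℝ, 0 < C ∧ 0 < α₀ ∧ ∀ᶠ T : ℝ in atTop, ∀ α : ℝ, 0 < α → α ≤ 1 → ∀ x : ℝ, |x| ≤ T ^ A →
      mom (2 * α) (1 / 2) x T ≤ C * Real.log T ^ (α ^ 2) ∧
      (α ≤ α₀ → (1 - ρ) * Real.log T ^ (α ^ 2) ≤ mom (2 * α) (1 / 2) x T ∧
        mom (2 * α) (1 / 2) x T ≤ (1 + ρ) * Real.log T ^ (α ^ 2)) := by
  set r := min (ρ / 8) 1 with hr
  have hr0 : 0 < r := lt_min (by positivity) one_pos
  have hr1 : r ≤ ρ / 8 := min_le_left _ _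
  have hr2 : r ≤ 1 := min_le_right _ _
  obtain ⟨C1, α₁, hC1, hα₁, hu⟩ := ivL_up hA hA2 hr0 hr2
  obtain ⟨C2, α₂, hC2, hα₂, hl⟩ := win_evL hA hA2 hr0 hr2
  refine ⟨3 * C1, min α₁ α₂, by positivity, lt_min hα₁ hα₂, ?_⟩
  filter_upwards [hu, hl r hr0, Real.tendsto_log_atTop.eventually_ge_atTop 1, eventually_ge_atTop 1]
    with T h1 h2 hL1 hT1 α hα hα1 x hx
  have hT0 : 0 < T := by linarith
  have hTA : T ≤ T ^ A := by
    have := Real.rpow_le_rpow_of_exponent_le hT1 hA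
    rwa [Real.rpow_one] at this
  obtain ⟨a₁, b₁, a₂, b₂, e1, e2, e3, e4, e5, e6, e7, e8⟩ := shift_two (zl_cont hα) (fun t => by rw [zn_neg]) (x := x) hT0.le
  rw [mom_eq _ _ _ hT0, e8, inv_mul_eq_div]
  set P := Real.log T ^ (α ^ 2) with hP
  have hP0 : 0 < P := by positivity
  have hPT : 0 < P * T := by positivity
  obtain ⟨g1, g2⟩ := h1 α hα hα1 a₁ b₁ e1 e2 (by linarith)
  obtain ⟨g3, g4⟩ := h1 α hα hα1 a₂ b₂ e3 e4 (by linarith)
  refine ⟨?_, fun hαα => ⟨?_, ?_⟩⟩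
  · rw [div_le_iff₀ hT0]
    have e9 : C1 * P * (b₁ - a₁ + T) + C1 * P * (b₂ - a₂ + T) = 3 * C1 * P * T := by
      rw [← mul_add]
      linear_combination (C1 * P) * e7
    linarith
  · rw [le_div_iff₀ hT0]
    have hW : ∀ U H : ℝ, r * T ≤ U → r * T ≤ H → U + H ≤ 8 * U → U + H ≤ 3 * T ^ A →
      ((1 - r) * P) * H ≤ ∫ t in U..(U + H), zn (1 / 2) t ^ (2 * α) := fun U H f1 f2 f3 f4 =>
        ((h2 α hα hα1 U H f1 f2 f3 f4).2 (hαα.trans (min_le_right _ _))).1
    have k0 : 0 ≤ (1 - r) * P := mul_nonneg (by linarith) hP0.le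
    have f1 := ivL_low_gen hα (by positivity) k0 hW e1 e2 (by linarith)
    have f2 := ivL_low_gen hα (by positivity) k0 hW e3 e4 (by linarith)
    have e9 : (1 - r) * P * (b₁ - a₁ - 2 * (r * T)) + (1 - r) * P * (b₂ - a₂ - 2 * (r * T)) = ((1 - r) * (1 - 4 * r)) * (P * T) := by
      rw [← mul_add]
      linear_combination ((1 - r) * P) * e7
    have e10 : (1 - ρ) * (P * T) ≤ ((1 - r) * (1 - 4 * r)) * (P * T) :=
      mul_le_mul_of_nonneg_right (by nlinarith) hPT.le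
    linarith
  · rw [div_le_iff₀ hT0]
    have f1 := g2 (hαα.trans (min_le_left _ _))
    have f2 := g4 (hαα.trans (min_le_left _ _))
    have e9 : (1 + r) * P * (b₁ - a₁ + r * T) + (1 + r) * P * (b₂ - a₂ + r * T) = ((1 + r) * (1 + 2 * r)) * (P * T) := by
      rw [← mul_add]
      linear_combination ((1 + r) * P) * e7
    have e10 : ((1 + r) * (1 + 2 * r)) * (P * T) ≤ (1 + ρ) * (P * T) :=
      mul_le_mul_of_nonneg_right (by nlinarith) hPT.le
    linarith

/-- the lower bound of the right order, uniformly in the shift -/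
theorem shLow {A : ℝ} (hA : 1 ≤ A) (hA2 : A < 2) {α : ℝ} (hα : 0 < α) (hα1 : α ≤ 1) :
    ∃ c : ℝ, 0 < c ∧ ∀ᶠ T : ℝ in atTop, ∀ x : ℝ, |x| ≤ T ^ A →
      c * Real.log T ^ (α ^ 2) ≤ mom (2 * α) (1 / 2) x T := by
  obtain ⟨c, hc, hl⟩ := win_evLow hA hA2 hα hα1
  refine ⟨c / 2, by positivity, ?_⟩
  filter_upwards [hl (1 / 8) (by norm_num), Real.tendsto_log_atTop.eventually_ge_atTop 1, eventually_ge_atTop 1]
    with T h2 hL1 hT1 x hx
  have hT0 : 0 < T := by linarith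
  have hTA : T ≤ T ^ A := by
    have := Real.rpow_le_rpow_of_exponent_le hT1 hA
    rwa [Real.rpow_one] at this
  obtain ⟨a₁, b₁, a₂, b₂, e1, e2, e3, e4, e5, e6, e7, e8⟩ := shift_two (zl_cont hα) (fun t => by rw [zn_neg]) (x := x) hT0.le
  rw [mom_eq _ _ _ hT0, e8, inv_mul_eq_div]
  set P := Real.log T ^ (α ^ 2) with hP
  have hP0 : 0 < P := by positivity
  rw [le_div_iff₀ hT0]
  have k0 : 0 ≤ c * P := by positivity
  have f1 := ivL_low_gen hα (by positivity) k0 h2 e1 e2 (by linarith)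
  have f2 := ivL_low_gen hα (by positivity) k0 h2 e3 e4 (by linarith)
  have e9 : c * P * (b₁ - a₁ - 2 * (1 / 8 * T)) + c * P * (b₂ - a₂ - 2 * (1 / 8 * T)) = c / 2 * P * T := by
    rw [← mul_add]
    linear_combination (c * P) * e7
  linarith

end Pool.Agent.T6.H57.NS
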