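import Pool.Agent.T6.H57.NS.Iv

set_option autoImplicit false

/-! Upper bounds on the line over short windows. -/

namespace Pool.Agent.T6.H57.NS

open Finset Filter MeasureTheory
open Pool.Agent.W184.NZ
open Pool.Agent.W184 (zn zn_nonneg zn_cont zn_le' zn_neg)
open Pool.Agent.Y755
open Pool.Agent.T6.H57.SM (gp_cont' s2m)

lemma gf_zero_ge (K R : ℕ) (z : ℂ) : 1 ≤ gf K 0 R z := by
  unfold gf
  have h1 : NK K 0 z = (1:ℂ) := by
    unfold NK
    rw [sum_eq_single 0]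
    · simp
    · intro k _ hk
      simp [zero_pow hk]
    · intro h
      exact absurd (mem_range.mpr (by omega)) h
  rw [h1, norm_one]
  have : 0 ≤ (‖z‖ / (R:ℝ)) ^ (2 * R) := by positivity
  linarith

lemma gp_zero_ge (J : ℕ) (R : ℕ → ℕ) (I : ℕ → Finset ℕ) (t : ℝ) : 1 ≤ gp J 0 R I t := by
  unfold gp
  have := prod_le_prod (s := range J) (f := fun _ => (1:ℝ))
    (g := fun i => gf (20 * R i) 0 (R i) (PI (I i) (1 / 2 + t * Complex.I))) (fun _ _ => zero_le_one)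
    (fun i _ => gf_zero_ge _ _ _)
  simpa using this

section
variable {c y : ℝ} {J Rs : ℕ} {I : ℕ → Finset ℕ}

/-- the first average over a window -/
lemma F_avgS (hy : 1 ≤ y) (h : Rg c J I (bb y)) (hRs : Rok c Rs) {a : ℝ} (ha : |a| ≤ 1) (U : ℝ) {H : ℝ} (hH : 0 ≤ H) :
    ∫ t in U..(U + H), gp J a (RR Rs) I t ≤
      H * Real.exp (a ^ 2 * (∑ i ∈ range J, vI (I i)) + 12 * a ^ 2 * c + 2 * Bc c * Real.exp (-(Rs:ℝ))) +
      4 * Real.exp (Real.log y * (400 * ((Rs:ℝ) + 1))) := by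
  have hB := GP_Bdz (Rs := Rs) hy h a
  have h1 := avg0 hB (U + H)
  have h1' := avg0 hB U
  have hP : ∀ i, ∀ p ∈ I i, p.Prime := fun i p hp => (h.pr i p hp).1
  have e1 : ∀ t, (ev t (GP J a (RR Rs) I)).re = gp J a (RR Rs) I t := by
    intro t; rw [ev_GP t J a _ hP, Complex.ofReal_re]
  have hgc : Continuous fun t => gp J a (RR Rs) I t := by
    have := ev_re_cont hB
    exact this.congr e1
  simp_rw [e1] at h1 h1'
  have h2 := GP_up goodW0 h hRs (RR_ge Rs) ha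
  have h3 := GP_l1z hy h hRs.1 ha
  rw [show (2 * 0 * a + a ^ 2) = a ^ 2 by ring] at h2
  have h4 : 2 * Real.exp (Real.log y * (160 * ((Rs:ℝ) + 1))) * l1 (GP J a (RR Rs) I) ≤
      2 * Real.exp (Real.log y * (400 * ((Rs:ℝ) + 1))) := by
    calc _ ≤ 2 * Real.exp (Real.log y * (160 * ((Rs:ℝ) + 1))) * Real.exp (Real.log y * (240 * ((Rs:ℝ) + 1))) := by
          gcongr
      _ = _ := by rw [mul_assoc, ← Real.exp_add]; congr 2; ring
  have h5 := (abs_le.mp h1).2
  have h5' := (abs_le.mp h1').1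
  have h6 := mul_le_mul_of_nonneg_left h2 hH
  have h7 := intervalIntegral.integral_add_adjacent_intervals (hgc.intervalIntegrable 0 U)
    (hgc.intervalIntegrable U (U + H)) (μ := volume)
  have e2 : (U + H) * lam w0 (GP J a (RR Rs) I) = U * lam w0 (GP J a (RR Rs) I) + H * lam w0 (GP J a (RR Rs) I) := by ring
  linarith

end

/-- the upper bounds on the line over short windows -/
theorem line_up {κ : ℝ} (hκ : 0 < κ) (hκ1 : κ ≤ 1 / 16) {ρ : ℝ} (hρ : 0 < ρ) (hρ1 : ρ ≤ 1) :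
    ∃ C α₀ : ℝ, 0 < C ∧ 0 < α₀ ∧ ∀ᶠ T : ℝ in atTop, ∀ α : ℝ, 0 < α → α ≤ 1 →
      ∀ U H : ℝ, T / 8 ≤ U → U + H ≤ 8 * T → T ^ (1 / 2 + 3 * κ) ≤ H →
      ∫ t in U..(U + H), zn (1 / 2) t ^ (2 * α) ≤ C * (H * Real.log T ^ (α ^ 2)) ∧
      (α ≤ α₀ → ∫ t in U..(U + H), zn (1 / 2) t ^ (2 * α) ≤ (1 + ρ) * (H * Real.log T ^ (α ^ 2))) := by
  obtain ⟨c, hc, hpar⟩ := par_ex
  obtain ⟨Rs, hRs, hRs2⟩ := Rs_ex c (ρ / 8) (by positivity)
  have hRs0 : (0:ℝ) < (Rs:ℝ) + 1 := by positivity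
  have hRs1 : (1:ℝ) ≤ (Rs:ℝ) + 1 := by
    have : (0:ℝ) ≤ Rs := Nat.cast_nonneg _
    linarith
  set η : ℝ := κ / 4000 / ((Rs:ℝ) + 1) with hηd
  have hη : 0 < η := by positivity
  have hηR : η * ((Rs:ℝ) + 1) = κ / 4000 := by rw [hηd]; field_simp
  have hη16 : η ≤ 1 / 16 := by
    have : η * 1 ≤ η * ((Rs:ℝ) + 1) := mul_le_mul_of_nonneg_left hRs1 hη.le
    linarith
  obtain ⟨d, hd, hpar2⟩ := hpar 1000 Rs le_rfl hRs.1 η hη hη16
  obtain ⟨C1, hC1, hQ⟩ := s2m (c := c) (z := 1000) le_rfl hRs.1 hκ hκ1 hη (by rw [hηR]; linarith) hd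
  have hB0 := Bc_pos c
  set D := d + 12 * c with hD
  have hD0 : 0 ≤ D := by positivity
  set C : ℝ := Real.exp 8 * (C1 + Real.exp (D + 2 * Bc c) + 1) with hC
  have hC0 : 0 < C := by positivity
  have he8 : (1:ℝ) ≤ Real.exp 8 := Real.one_le_exp (by norm_num)
  set α₀ : ℝ := min (1 / 2) (min (ρ / 16 / (D + 1)) (ρ / 8 / (Real.exp 8 * C1))) with hα₀
  have hα₀0 : 0 < α₀ := lt_min (by norm_num) (lt_min (by positivity) (by positivity))
  refine ⟨C, α₀, hC0, hα₀0, ?_⟩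
  filter_upwards [hpar2, hQ, rpow_ev (p := 1 / 4) (q := 1 / 2) (by norm_num) (4 / (ρ / 8) * Real.exp 8),
    Real.tendsto_log_atTop.eventually_ge_atTop 1, eventually_ge_atTop 1] with T t1 t2 t3 t4 t5 α hα hα1 U H hU hUH hH
  obtain ⟨J, hS, hV, -⟩ := t1
  have hT0 : 0 < T := by linarith
  set L := Real.log T with hL
  have hL0 : 0 < L := by linarith
  set y := yT η T with hy
  have hly : Real.log y = η * L := Real.log_exp _
  have hy1 : 1 ≤ y := hS.y1
  set V := ∑ i ∈ range J, vI (IZ 1000 y i) with hVd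
  have hHpos : 0 < H := lt_of_lt_of_le (by positivity) hH
  set M := H * L ^ (α ^ 2) with hM
  have hLp1 : 1 ≤ L ^ (α ^ 2) := Real.one_le_rpow t4 (sq_nonneg α)
  have hHM : H ≤ M := le_mul_of_one_le_right hHpos.le hLp1
  have hM0 : 0 < M := by linarith
  have hcz : Continuous fun t => zn (1 / 2) t := zn_cont (by norm_num)
  have hcz2 : Continuous fun t => zn (1 / 2) t ^ (2 * α) := hcz.rpow_const fun _ => Or.inr (by positivity)
  have hUH' : U ≤ U + H := by linarith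
  have hS2 := fun (a : ℝ) (ha : |a| ≤ 1) => t2 J hS.zy hS.J1 hS.rg hV a ha U H hU hUH hH
  have hgc : ∀ a : ℝ, Continuous fun t => gp J a (RR Rs) (IZ 1000 y) t := fun a => gp_cont' hy1 hS.rg
  have hT12 : T ^ ((1:ℝ) / 2) ≤ H := (Real.rpow_le_rpow_of_exponent_le t5 (by linarith)).trans hH
  have herr : Real.exp 8 * (4 * Real.exp (Real.log y * (400 * ((Rs:ℝ) + 1)))) ≤ ρ / 8 * H := by
    have h1 : Real.exp (Real.log y * (400 * ((Rs:ℝ) + 1))) ≤ T ^ ((1:ℝ) / 4) := by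
      rw [hly, Real.rpow_def_of_pos hT0]
      refine Real.exp_le_exp.mpr ?_
      have : η * L * (400 * ((Rs:ℝ) + 1)) = 400 * (η * ((Rs:ℝ) + 1)) * L := by ring
      rw [this, hηR]
      nlinarith
    calc Real.exp 8 * (4 * Real.exp (Real.log y * (400 * ((Rs:ℝ) + 1)))) ≤ Real.exp 8 * (4 * T ^ ((1:ℝ) / 4)) := by
          gcongr
      _ = ρ / 8 * (4 / (ρ / 8) * Real.exp 8 * T ^ ((1:ℝ) / 4)) := by field_simp
      _ ≤ ρ / 8 * H := mul_le_mul_of_nonneg_left (t3.trans hT12) (by positivity)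
  have hx1 : Real.exp (-(Rs:ℝ)) ≤ 1 := Real.exp_le_one_iff.mpr (by simp)
  have hx0 := Real.exp_pos (-(Rs:ℝ))
  rcases eq_or_lt_of_le hα1 with h1 | h1
  · -- the second moment
    subst h1
    have h2 := hS2 0 (by simp)
    have h3 : ∫ t in U..(U + H), zn (1 / 2) t ^ (2 * (1:ℝ)) ≤ C1 * M := by
      refine le_trans ?_ (h2.trans (le_of_eq (by rw [hM]; norm_num)))
      refine intervalIntegral.integral_mono_on hUH' (hcz2.intervalIntegrable _ _)
        ((cl_cont_zeta.mul (hgc 0)).intervalIntegrable _ _) fun t _ => ?_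
      rw [mul_one, Real.rpow_two, zn_cl]
      exact le_mul_of_one_le_right (sq_nonneg _) (gp_zero_ge _ _ _ _)
    have h4 : C1 * M ≤ C * M := by
      refine mul_le_mul_of_nonneg_right ?_ hM0.le
      rw [hC]
      have h5 : 0 < Real.exp (D + 2 * Bc c) := Real.exp_pos _
      have h6 : 1 * (C1 + Real.exp (D + 2 * Bc c) + 1) ≤ Real.exp 8 * (C1 + Real.exp (D + 2 * Bc c) + 1) :=
        mul_le_mul_of_nonneg_right he8 (by linarith)
      linarith
    refine ⟨h3.trans h4, fun h => ?_⟩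
    have h5 : (1:ℝ) ≤ 1 / 2 := h.trans (min_le_left _ _)
    norm_num at h5
  · have haa : |(-(1 - α))| ≤ 1 := by rw [abs_neg, abs_of_pos (by linarith)]; linarith
    have hG := hS2 (-(1 - α)) haa
    have e1 : 1 + (-(1 - α)) = α := by ring
    rw [e1] at hG
    have hF := F_avgS (Rs := Rs) hy1 hS.rg hRs (a := α) (by rw [abs_of_pos hα]; linarith) U hHpos.le
    set P : ℝ := Real.exp (-(8 * Real.exp (-(Rs:ℝ)))) with hP'
    have hP0 : 0 < P := Real.exp_pos _
    have hPi : P⁻¹ = Real.exp (8 * Real.exp (-(Rs:ℝ))) := by rw [hP', ← Real.exp_neg, neg_neg]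
    have hPi8 : P⁻¹ ≤ Real.exp 8 := by rw [hPi]; exact Real.exp_le_exp.mpr (by linarith)
    have hF2 : ∫ t in U..(U + H), gp J α (RR Rs) (IZ 1000 y) t ≤
        M * Real.exp (α ^ 2 * D + 2 * Bc c * Real.exp (-(Rs:ℝ))) + 4 * Real.exp (Real.log y * (400 * ((Rs:ℝ) + 1))) := by
      refine hF.trans (add_le_add ?_ le_rfl)
      rw [hM, mul_assoc H]
      refine mul_le_mul_of_nonneg_left ?_ hHpos.le
      rw [Real.rpow_def_of_pos hL0, ← Real.exp_add]
      refine Real.exp_le_exp.mpr ?_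
      have h2 : α ^ 2 * V ≤ α ^ 2 * (Real.log L + d) :=
        mul_le_mul_of_nonneg_left (by linarith [(abs_le.mp hV).2]) (sq_nonneg _)
      have h3 : α ^ 2 * (Real.log L + d) + 12 * α ^ 2 * c = Real.log L * α ^ 2 + α ^ 2 * D := by rw [hD]; ring
      linarith
    set F := ∫ t in U..(U + H), gp J α (RR Rs) (IZ 1000 y) t with hFd
    set G := ∫ t in U..(U + H), ‖riemannZeta (Pool.Agent.H306R2.SM.cl t)‖ ^ 2 * gp J (-(1 - α)) (RR Rs) (IZ 1000 y) t with hGd
    set Z := ∫ t in U..(U + H), zn (1 / 2) t ^ (2 * α) with hZ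
    have hint : P * Z ≤ α * G + (1 - α) * F := by
      have i1 : IntervalIntegrable (fun t => α * (zn (1 / 2) t ^ 2 * gp J (-(1 - α)) (RR Rs) (IZ 1000 y) t))
        volume U (U + H) := (continuous_const.mul ((hcz.pow 2).mul (hgc _))).intervalIntegrable _ _
      have i2 : IntervalIntegrable (fun t => (1 - α) * gp J α (RR Rs) (IZ 1000 y) t)
        volume U (U + H) := (continuous_const.mul (hgc _)).intervalIntegrable _ _
      rw [hZ, hGd, hFd, ← intervalIntegral.integral_const_mul, ← intervalIntegral.integral_const_mul,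
        ← intervalIntegral.integral_const_mul]
      simp_rw [← zn_cl]
      rw [← intervalIntegral.integral_add i1 i2]
      refine intervalIntegral.integral_mono_on hUH' ((continuous_const.mul hcz2).intervalIntegrable _ _)
        (i1.add i2) fun t _ => ?_
      exact prod_star hα h1 hRs.1 (IZ 1000 y) t (zn (1 / 2) t) (zn_nonneg _ _)
    have hF0 : 0 ≤ F := intervalIntegral.integral_nonneg hUH' fun t _ => gp_nonneg J _ _ _ t
    have hc2 : Z ≤ P⁻¹ * (α * (C1 * M) + F) := by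
      rw [← div_eq_inv_mul, le_div_iff₀ hP0]
      have h2 : α * G ≤ α * (C1 * M) := mul_le_mul_of_nonneg_left hG hα.le
      have h3 : (1 - α) * F ≤ 1 * F := mul_le_mul_of_nonneg_right (by linarith) hF0
      linarith
    have hPp : 0 < P⁻¹ := inv_pos.mpr hP0
    set X := Real.exp (α ^ 2 * D + 2 * Bc c * Real.exp (-(Rs:ℝ))) with hX
    have hc3 : Z ≤ P⁻¹ * (α * (C1 * M)) + (P⁻¹ * X) * M + ρ / 8 * H := by
      have h2 : P⁻¹ * (α * (C1 * M) + F) ≤ P⁻¹ * (α * (C1 * M) + (M * X + 4 * Real.exp (Real.log y * (400 * ((Rs:ℝ) + 1))))) :=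
        mul_le_mul_of_nonneg_left (by linarith) hPp.le
      have h3 : P⁻¹ * (4 * Real.exp (Real.log y * (400 * ((Rs:ℝ) + 1)))) ≤ ρ / 8 * H :=
        (mul_le_mul_of_nonneg_right hPi8 (by positivity)).trans herr
      have h4 : P⁻¹ * (α * (C1 * M) + (M * X + 4 * Real.exp (Real.log y * (400 * ((Rs:ℝ) + 1))))) =
        P⁻¹ * (α * (C1 * M)) + (P⁻¹ * X) * M + P⁻¹ * (4 * Real.exp (Real.log y * (400 * ((Rs:ℝ) + 1)))) := by ring
      linarith
    have hC1M : 0 < C1 * M := by positivity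
    have hα2 : α ^ 2 ≤ 1 := by nlinarith
    constructor
    · have h2 : P⁻¹ * (α * (C1 * M)) ≤ Real.exp 8 * (1 * (C1 * M)) :=
        mul_le_mul hPi8 (mul_le_mul_of_nonneg_right hα1 hC1M.le) (by positivity) (by positivity)
      have h3 : P⁻¹ * X ≤ Real.exp 8 * Real.exp (D + 2 * Bc c) := by
        refine mul_le_mul hPi8 (Real.exp_le_exp.mpr ?_) (Real.exp_pos _).le (by positivity)
        have h4 : α ^ 2 * D ≤ 1 * D := mul_le_mul_of_nonneg_right hα2 hD0
        have h5 : 2 * Bc c * Real.exp (-(Rs:ℝ)) ≤ 2 * Bc c * 1 := mul_le_mul_of_nonneg_left hx1 (by positivity)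
        linarith
      have h4 : (P⁻¹ * X) * M ≤ (Real.exp 8 * Real.exp (D + 2 * Bc c)) * M := mul_le_mul_of_nonneg_right h3 hM0.le
      have h5 : ρ / 8 * H ≤ Real.exp 8 * M := by
        have h6 : ρ / 8 * H ≤ 1 * M := mul_le_mul (by linarith) hHM hHpos.le (by norm_num)
        have h7 : 1 * M ≤ Real.exp 8 * M := mul_le_mul_of_nonneg_right he8 hM0.le
        linarith
      rw [hC]
      nlinarith
    · intro hαα
      have d1 : α ≤ ρ / 8 / (Real.exp 8 * C1) := hαα.trans ((min_le_right _ _).trans (min_le_right _ _))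
      have d2 : α ≤ ρ / 16 / (D + 1) := hαα.trans ((min_le_right _ _).trans (min_le_left _ _))
      rw [le_div_iff₀ (by positivity)] at d1 d2
      have h2 : P⁻¹ * (α * (C1 * M)) ≤ ρ / 8 * M := by
        calc P⁻¹ * (α * (C1 * M)) ≤ Real.exp 8 * (α * (C1 * M)) := mul_le_mul_of_nonneg_right hPi8 (by positivity)
          _ = (α * (Real.exp 8 * C1)) * M := by ring
          _ ≤ ρ / 8 * M := mul_le_mul_of_nonneg_right d1 hM0.le
      have h3 : P⁻¹ * X ≤ (1 + ρ / 8) * (1 + ρ / 8) := by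
        have h4 : P⁻¹ * X = Real.exp ((8 + 2 * Bc c) * Real.exp (-(Rs:ℝ))) * Real.exp (α ^ 2 * D) := by
          rw [hPi, hX, ← Real.exp_add, ← Real.exp_add]; congr 1; ring
        rw [h4]
        refine mul_le_mul hRs2 ?_ (Real.exp_pos _).le (by linarith)
        have d3 : α ^ 2 * D ≤ ρ / 16 := by
          have : α ^ 2 * D ≤ α * D := mul_le_mul_of_nonneg_right (by nlinarith) hD0
          nlinarith
        have d5 : 0 ≤ α ^ 2 * D := by positivity
        have d6 := Real.exp_bound' (x := α ^ 2 * D) d5 (by linarith) (n := 1) (by norm_num)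
        norm_num at d6
        linarith
      have h4 : (P⁻¹ * X) * M ≤ ((1 + ρ / 8) * (1 + ρ / 8)) * M := mul_le_mul_of_nonneg_right h3 hM0.le
      have h5 : ρ / 8 * H ≤ ρ / 8 * M := mul_le_mul_of_nonneg_left hHM (by positivity)
      have h6 : ((1 + ρ / 8) * (1 + ρ / 8)) ≤ 1 + 3 * (ρ / 8) := by nlinarith
      have h7 : ((1 + ρ / 8) * (1 + ρ / 8)) * M ≤ (1 + 3 * (ρ / 8)) * M := mul_le_mul_of_nonneg_right h6 hM0.le
      have h8 : 0 < ρ * M := by positivity
      nlinarith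

end Pool.Agent.T6.H57.NS
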